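import Pool.Agent.Lib_helper2.CollatzFinal
import Pool.Agent.Lib_helper1.C1.Cert
import Pool.Agent.Lib_helper1.C2.Cert
import Pool.Agent.Lib_helper1.C3.Cert
import Pool.Agent.Lib_helper1.C4.Cert
import Pool.Agent.Lib_helper1.C5.Cert
import Pool.Agent.Lib_helper1.C6.Cert
import Pool.Agent.Lib_helper1.C7.Cert

/-!
# At least `x ^ 0.92` integers below `x` reach a given `a` not divisible by three

The proof chains seven finite certificates (tables on the residues modulo `3^4, …, 3^17`, checked
by the kernel in `Pool.Agent.Lib_helper1.C1`, …, `C7`) with the general theory of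
`Pool.Agent.Lib_helper2`: a certificate with parameters `(g, q, p)` raises the exponent of
infinitely many bands from any value above `1 - q * log_3 p` to `g`, and the last one gives all
large `x` with the exponent `g - (1 - g) / q`.
-/

namespace Pool.Agent.Lib_helper1.CollatzExponent

open Pool.Agent.Lib_helper1
open Pool.Agent.Lib_helper2.Collatz (Cert CertOK NP IO.base T)

theorem g1 : C1.K.g = 3 / 5 := by unfold Cert.g C1.K; norm_num
theorem g2 : C2.K.g = 4 / 5 := by unfold Cert.g C2.K; norm_num
theorem g3 : C3.K.g = 173 / 200 := by unfold Cert.g C3.K; norm_num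
theorem g4 : C4.K.g = 9 / 10 := by unfold Cert.g C4.K; norm_num
theorem g5 : C5.K.g = 91 / 100 := by unfold Cert.g C5.K; norm_num
theorem g6 : C6.K.g = 1147 / 1250 := by unfold Cert.g C6.K; norm_num
theorem g7 : C7.K.g = 4627 / 5000 := by unfold Cert.g C7.K; norm_num

/-- The chain of certificates: every exponent below `0.9254` is attained in infinitely many
bands. -/
theorem chain (r : ℕ) (hr3 : r % 3 = 2) (hr : NP r) :
    ∀ s < C7.K.g, Pool.Agent.Lib_helper2.Collatz.IO r s := by
  have h0 := IO.base hr hr3
  have h1 := C1.certOK.chain hr (a := 1 / 6) (by norm_num) (by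
    have := C1.certOK.cond (w := 5) (n := 6) (by norm_num) (by decide +kernel)
    push_cast at this
    linarith) h0
  rw [g1] at h1
  have h2 := C2.certOK.chain hr (by norm_num) (by
    have := C2.certOK.cond (w := 2) (n := 5) (by norm_num) (by decide +kernel)
    push_cast at this
    linarith) h1
  rw [g2] at h2
  have h3 := C3.certOK.chain hr (by norm_num) (by
    have := C3.certOK.cond (w := 1) (n := 5) (by norm_num) (by decide +kernel)
    push_cast at this
    linarith) h2
  rw [g3] at h3
  have h4 := C4.certOK.chain hr (by norm_num) (by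
    have := C4.certOK.cond (w := 27) (n := 200) (by norm_num) (by decide +kernel)
    push_cast at this
    linarith) h3
  rw [g4] at h4
  have h5 := C5.certOK.chain hr (by norm_num) (by
    have := C5.certOK.cond (w := 1) (n := 10) (by norm_num) (by decide +kernel)
    push_cast at this
    linarith) h4
  rw [g5] at h5
  have h6 := C6.certOK.chain hr (by norm_num) (by
    have := C6.certOK.cond (w := 9) (n := 100) (by norm_num) (by decide +kernel)
    push_cast at this
    linarith) h5
  rw [g6] at h6
  exact C7.certOK.chain hr (by norm_num) (by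
    have := C7.certOK.cond (w := 103) (n := 1250) (by norm_num) (by decide +kernel)
    push_cast at this
    linarith) h6

/-- For every `a` not divisible by three, at least `x ^ 0.92` of the integers `1 ≤ n ≤ x` have a
Collatz trajectory containing `a`, for all sufficiently large `x`. -/
theorem exponent (a : ℕ) (ha : a % 3 ≠ 0) : ∃ x0 : ℕ, ∀ x : ℕ, x0 ≤ x →
    (x : ℝ) ^ (0.92 : ℝ) ≤ (Set.ncard {n : ℕ | 1 ≤ n ∧ n ≤ x ∧ ∃ s, T^[s] n = a} : ℝ) := by
  refine C7.certOK.final ?_ (fun r hr3 hr => chain r hr3 hr) (by norm_num) ?_ ha
  · rw [g7]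
    have := C7.certOK.cond (w := 103) (n := 1250) (by norm_num) (by decide +kernel)
    push_cast at this
    linarith
  · rw [g7]
    have : (C7.K.q : ℝ) = 16 := by unfold C7.K; norm_num
    rw [this]
    norm_num

end Pool.Agent.Lib_helper1.CollatzExponent
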