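import Pool.Agent.Lib_helper1.VecLanes

namespace Pool.Agent.Lib_helper1.V

/-! ### evaluation of the raw functions -/

lemma ones_eq (w n : ℕ) : ones w n = (2 ^ (w * n) - 1) / (2 ^ w - 1) := rfl

lemma lanes_one (w : ℕ) (hw : 0 < w) : ∀ n, Lanes w n (∑ k ∈ Finset.range n, (2 ^ w) ^ k) (fun _ => 1) := by
  have h1 : (1 : ℕ) < 2 ^ w := Nat.one_lt_two_pow hw.ne'
  intro n
  induction n with
  | zero => intro t; simp [lane_zero_left]
  | succ n ih =>
    rw [Finset.sum_range_succ']
    intro t
    have : ∑ k ∈ Finset.range n, (2 ^ w) ^ (k + 1) + (2 ^ w) ^ 0 =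
        1 + 2 ^ w * ∑ k ∈ Finset.range n, (2 ^ w) ^ k := by
      rw [Finset.mul_sum, pow_zero, add_comm]
      congr 1
      exact Finset.sum_congr rfl fun k _ => by ring
    rw [this, lane_of_split _ _ _ _ h1, ih (t - 1)]
    by_cases h : t = 0
    · simp [h]
    · have : t - 1 < n ↔ t < n + 1 := by omega
      simp [h, this]

lemma ones_eq_sum (w n : ℕ) (hw : 0 < w) : ones w n = ∑ k ∈ Finset.range n, (2 ^ w) ^ k := by
  rw [ones_eq, pow_mul, Nat.geomSum_eq]
  calc 2 = 2 ^ 1 := by norm_num
    _ ≤ 2 ^ w := Nat.pow_le_pow_right (by norm_num) hw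

lemma lanes_ones (w n : ℕ) (hw : 0 < w) : Lanes w n (ones w n) (fun _ => 1) := by
  rw [ones_eq_sum w n hw]
  exact lanes_one w hw n

lemma full_eq (w n b : ℕ) : full w n b = ones w n * (2 ^ b - 1) := rfl

lemma lanes_full (w n b : ℕ) (hw : 0 < w) (hb : b ≤ w) :
    Lanes w n (full w n b) (fun _ => 2 ^ b - 1) := by
  rw [full_eq]
  have h := (lanes_ones w n hw).mul (2 ^ b - 1) (fun t _ => by
    have h1 : 2 ^ b ≤ 2 ^ w := Nat.pow_le_pow_right (by norm_num) hb
    have h2 : 0 < 2 ^ b := by positivity
    omega)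
  simpa using h

/-- shift to the right inside the lanes, followed by a mask -/
lemma lanes_shr_mask {w N n X a b : ℕ} {f : ℕ → ℕ} (hX : Lanes w N X f) (hn : n ≤ N)
    (hw : 0 < w) (hab : b + a ≤ w) :
    Lanes w n ((X >>> a) &&& full w n b) (fun t => (f t >>> a) % 2 ^ b) := by
  intro t
  rw [lane_land, lanes_full w n b hw (by omega) t]
  split_ifs with ht
  · have hft : f t = lane w X t := by rw [hX t, if_pos (by omega)]
    show lane w (X >>> a) t &&& (2 ^ b - 1) = (f t >>> a) % 2 ^ b
    rw [hft, Nat.and_two_pow_sub_one_eq_mod]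
    apply Nat.eq_of_testBit_eq
    intro i
    rw [Nat.testBit_mod_two_pow, Nat.testBit_mod_two_pow, testBit_lane, Nat.testBit_shiftRight,
      Nat.testBit_shiftRight, testBit_lane]
    by_cases hi : i < b
    · have h1 : i < w := by omega
      have h2 : a + i < w := by omega
      simp only [hi, h1, h2, decide_true, Bool.true_and]
      congr 1
      ring
    · simp [hi]
  · simp

lemma orShr_succ (r d z : ℕ) (hr : 1 ≤ r) :
    orShr (r + 1) d z = orShr r d z ||| (z >>> (r * d)) := by
  obtain ⟨r, rfl⟩ := Nat.exists_eq_succ_of_ne_zero (by omega : r ≠ 0)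
  rfl

lemma orShl_succ (r d z : ℕ) (hr : 1 ≤ r) :
    orShl (r + 1) d z = orShl r d z ||| (z <<< (r * d)) := by
  obtain ⟨r, rfl⟩ := Nat.exists_eq_succ_of_ne_zero (by omega : r ≠ 0)
  rfl

lemma testBit_orShr (r d z p : ℕ) (hr : 1 ≤ r) :
    (orShr r d z).testBit p = true ↔ ∃ a < r, z.testBit (p + a * d) = true := by
  induction r, hr using Nat.le_induction with
  | base =>
    have h : orShr 1 d z = z := rfl
    rw [h]
    constructor
    · intro h; exact ⟨0, by norm_num, by simpa using h⟩
    · rintro ⟨a, ha, h⟩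
      have : a = 0 := by omega
      subst this; simpa using h
  | succ r hr ih =>
    rw [orShr_succ r d z hr, Nat.testBit_or, Bool.or_eq_true, ih, Nat.testBit_shiftRight]
    constructor
    · rintro (⟨a, ha, h⟩ | h)
      · exact ⟨a, by omega, h⟩
      · exact ⟨r, by omega, by rw [add_comm]; exact h⟩
    · rintro ⟨a, ha, h⟩
      rcases Nat.lt_succ_iff_lt_or_eq.1 ha with h1 | h1
      · exact Or.inl ⟨a, h1, h⟩
      · right; rw [← h1, add_comm]; exact h

lemma testBit_orShl (r d z p : ℕ) (hr : 1 ≤ r) :
    (orShl r d z).testBit p = true ↔ ∃ a < r, a * d ≤ p ∧ z.testBit (p - a * d) = true := by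
  induction r, hr using Nat.le_induction with
  | base =>
    have h : orShl 1 d z = z := rfl
    rw [h]
    constructor
    · intro h; exact ⟨0, by norm_num, by simp, by simpa using h⟩
    · rintro ⟨a, ha, _, h⟩
      have : a = 0 := by omega
      subst this; simpa using h
  | succ r hr ih =>
    rw [orShl_succ r d z hr, Nat.testBit_or, Bool.or_eq_true, ih, Nat.testBit_shiftLeft,
      Bool.and_eq_true, decide_eq_true_eq]
    constructor
    · rintro (⟨a, ha, h⟩ | h)
      · exact ⟨a, by omega, h⟩
      · exact ⟨r, by omega, h⟩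
    · rintro ⟨a, ha, h⟩
      rcases Nat.lt_succ_iff_lt_or_eq.1 ha with h1 | h1
      · exact Or.inl ⟨a, h1, h⟩
      · right; rw [← h1]; exact h

lemma rep_zero (r q : ℕ) : rep r q 0 = 2 ^ q - 1 := rfl

lemma rep_succ (r q c : ℕ) : rep r q (c + 1) = orShl r (r * q * r ^ c) (rep r q c) := rfl

lemma testBit_rep (r q : ℕ) (hr : 1 ≤ r) (hq : 0 < q) : ∀ c p,
    (rep r q c).testBit p = true ↔ p < r * q * r ^ c ∧ p % (r * q) < q := by
  intro c
  have hrq : 0 < r * q := Nat.mul_pos (by omega) hq
  induction c with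
  | zero =>
    intro p
    rw [rep_zero, Nat.testBit_two_pow_sub_one, decide_eq_true_eq, pow_zero, mul_one]
    constructor
    · intro h
      have h2 : p < r * q := lt_of_lt_of_le h (Nat.le_mul_of_pos_left q (by omega))
      exact ⟨h2, by rwa [Nat.mod_eq_of_lt h2]⟩
    · rintro ⟨h1, h2⟩
      rwa [Nat.mod_eq_of_lt h1] at h2
  | succ c ih =>
    intro p
    rw [rep_succ, testBit_orShl _ _ _ _ hr]
    set d := r * q * r ^ c with hd
    have hdpos : 0 < d := by positivity
    have hd2 : r * q * r ^ (c + 1) = r * d := by rw [hd]; ring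
    rw [hd2]
    constructor
    · rintro ⟨a, ha, h1, h2⟩
      rw [ih] at h2
      obtain ⟨h3, h4⟩ := h2
      constructor
      · calc p < a * d + d := by omega
          _ = (a + 1) * d := by ring
          _ ≤ r * d := Nat.mul_le_mul_right d ha
      · have h5 : p = (p - a * d) + (r * q) * (a * r ^ c) := by
          have : (r * q) * (a * r ^ c) = a * d := by rw [hd]; ring
          omega
        rw [h5, Nat.add_mul_mod_self_left]
        exact h4
    · rintro ⟨h1, h2⟩
      refine ⟨p / d, ?_, Nat.div_mul_le_self p d, ?_⟩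
      · exact (Nat.div_lt_iff_lt_mul hdpos).2 h1
      · rw [ih]
        have h3 : p - p / d * d = p % d := by
          have := Nat.div_add_mod p d
          rw [mul_comm] at this
          omega
        rw [h3]
        refine ⟨Nat.mod_lt _ hdpos, ?_⟩
        have h4 : r * q ∣ d := ⟨r ^ c, hd⟩
        rwa [Nat.mod_mod_of_dvd _ h4]

lemma testBit_cmask (r w L m idx i : ℕ) (hr : 1 ≤ r) (hm : m ≤ L) (hi : i < w) :
    (cmask r w L m).testBit (w * idx + i) = true ↔ idx < r ^ (L + 1) ∧ idx % r ^ (m + 1) < r ^ m := by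
  have hw : 0 < w := by omega
  have hrp : ∀ a, 0 < r ^ a := fun a => Nat.pow_pos (by omega)
  have e : cmask r w L m = rep r (w * r ^ m) (L - m) := rfl
  rw [e, testBit_rep r _ hr (Nat.mul_pos hw (hrp m))]
  have e1 : r * (w * r ^ m) * r ^ (L - m) = w * r ^ (L + 1) := by
    have : r ^ (L + 1) = r * (r ^ m * r ^ (L - m)) := by
      rw [← pow_add, Nat.add_sub_cancel' hm]; ring
    rw [this]; ring
  have e2 : r * (w * r ^ m) = w * r ^ (m + 1) := by ring
  rw [e1, e2]
  have e3 : w * idx + i < w * r ^ (L + 1) ↔ idx < r ^ (L + 1) := by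
    constructor
    · intro h
      by_contra hc
      push Not at hc
      have := Nat.mul_le_mul_left w hc
      omega
    · intro h
      have : w * (idx + 1) ≤ w * r ^ (L + 1) := Nat.mul_le_mul_left w h
      have e4 : w * (idx + 1) = w * idx + w := by ring
      omega
  have e5 : (w * idx + i) % (w * r ^ (m + 1)) = w * (idx % r ^ (m + 1)) + i := by
    conv_lhs => rw [← Nat.div_add_mod idx (r ^ (m + 1))]
    have : w * (r ^ (m + 1) * (idx / r ^ (m + 1)) + idx % r ^ (m + 1)) + i =
        (w * (idx % r ^ (m + 1)) + i) + (w * r ^ (m + 1)) * (idx / r ^ (m + 1)) := by ring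
    rw [this, Nat.add_mul_mod_self_left, Nat.mod_eq_of_lt]
    have h1 : idx % r ^ (m + 1) + 1 ≤ r ^ (m + 1) := Nat.mod_lt _ (hrp _)
    have h2 := Nat.mul_le_mul_left w h1
    have e4 : w * (idx % r ^ (m + 1) + 1) = w * (idx % r ^ (m + 1)) + w := by ring
    omega
  rw [e3, e5]
  have e6 : w * (idx % r ^ (m + 1)) + i < w * r ^ m ↔ idx % r ^ (m + 1) < r ^ m := by
    constructor
    · intro h
      by_contra hc
      push Not at hc
      have := Nat.mul_le_mul_left w hc
      omega
    · intro h
      have : w * (idx % r ^ (m + 1) + 1) ≤ w * r ^ m := Nat.mul_le_mul_left w h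
      have e4 : w * (idx % r ^ (m + 1) + 1) = w * (idx % r ^ (m + 1)) + w := by ring
      omega
  rw [e6]

/-- the `m`-th stage of `comp` -/
def compStage (r w L x m : ℕ) : ℕ :=
  Nat.rec (motive := fun _ => Nat) (Nat.land x (cmask r w L 0))
    (fun i z => Nat.land (orShr r (Nat.mul w (Nat.mul (Nat.sub r 1) (Nat.pow r i))) z)
      (cmask r w L (Nat.succ i))) m

lemma compStage_zero (r w L x : ℕ) : compStage r w L x 0 = x &&& cmask r w L 0 := rfl

lemma compStage_succ (r w L x m : ℕ) : compStage r w L x (m + 1) =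
    orShr r (w * ((r - 1) * r ^ m)) (compStage r w L x m) &&& cmask r w L (m + 1) := rfl

lemma comp_eq (r w L x : ℕ) : comp r w L x = compStage r w L x L := rfl

lemma testBit_compStage (r w L x : ℕ) (hr : 1 ≤ r) : ∀ m ≤ L, ∀ idx i, i < w →
    ((compStage r w L x m).testBit (w * idx + i) = true ↔
      idx < r ^ (L + 1) ∧ idx % r ^ (m + 1) < r ^ m ∧
        x.testBit (w * (r * (idx / r ^ (m + 1) * r ^ m + idx % r ^ (m + 1))) + i) = true) := by
  intro m
  have hrp : ∀ a, 0 < r ^ a := fun a => Nat.pow_pos (by omega)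
  induction m with
  | zero =>
    intro _ idx i hi
    rw [compStage_zero, Nat.testBit_and, Bool.and_eq_true, testBit_cmask r w L 0 idx i hr (Nat.zero_le _) hi]
    simp only [zero_add, pow_one, pow_zero, mul_one, Nat.lt_one_iff]
    constructor
    · rintro ⟨h1, h2, h3⟩
      refine ⟨h2, h3, ?_⟩
      rw [h3, add_zero, Nat.mul_div_cancel' (Nat.dvd_of_mod_eq_zero h3)]
      exact h1
    · rintro ⟨h2, h3, h1⟩
      refine ⟨?_, h2, h3⟩
      rw [h3, add_zero, Nat.mul_div_cancel' (Nat.dvd_of_mod_eq_zero h3)] at h1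
      exact h1
  | succ m ih =>
    intro hm idx i hi
    have hmL : m ≤ L := by omega
    rw [compStage_succ, Nat.testBit_and, Bool.and_eq_true,
      testBit_cmask r w L (m + 1) idx i hr hm hi, testBit_orShr _ _ _ _ hr]
    have e0 : ∀ a, w * idx + i + a * (w * ((r - 1) * r ^ m)) =
        w * (idx + a * ((r - 1) * r ^ m)) + i := by intro a; ring
    simp only [e0]
    have ih' := fun a => ih hmL (idx + a * ((r - 1) * r ^ m)) i hi
    simp only [ih']
    -- arithmetic
    by_cases hk : idx < r ^ (L + 1) ∧ idx % r ^ (m + 1 + 1) < r ^ (m + 1)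
    · obtain ⟨hk1, hk2⟩ := hk
      -- idx = P r^(m+2) + b r^m + o
      set P := idx / r ^ (m + 1 + 1) with hP
      set O := idx % r ^ (m + 1 + 1) with hO
      set b := O / r ^ m with hb
      set o := O % r ^ m with ho
      have hbr : b < r := by
        rw [hb, Nat.div_lt_iff_lt_mul (hrp m)]
        calc O < r ^ (m + 1) := hk2
          _ = r * r ^ m := by ring
      have hor : o < r ^ m := Nat.mod_lt _ (hrp m)
      have hidx : idx = P * r ^ (m + 2) + (b * r ^ m + o) := by
        have h1 := Nat.div_add_mod idx (r ^ (m + 1 + 1))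
        have h2 := Nat.div_add_mod O (r ^ m)
        rw [← hP, ← hO] at h1
        rw [← hb, ← ho] at h2
        have e2 : r ^ (m + 1 + 1) * P = P * r ^ (m + 2) := by ring
        have e3 : r ^ m * b = b * r ^ m := by ring
        omega
      have hOeq : O = b * r ^ m + o := by
        have h2 := Nat.div_add_mod O (r ^ m)
        rw [← hb, ← ho] at h2
        have e3 : r ^ m * b = b * r ^ m := by ring
        omega
      clear_value P O b o
      have hmain : ∀ a < r, ((idx + a * ((r - 1) * r ^ m)) % r ^ (m + 1) < r ^ m ↔ a = b) := by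
        intro a ha
        -- idx + a (r-1) r^m  = (P r + a) r^(m+1) + (b - a) r^m + o
        have hz : (idx + a * ((r - 1) * r ^ m)) + a * r ^ m =
            (P * r + a) * r ^ (m + 1) + (b * r ^ m + o) := by
          rw [hidx]
          obtain ⟨r', rfl⟩ : ∃ r', r = r' + 1 := ⟨r - 1, by omega⟩
          rw [Nat.add_sub_cancel]
          ring
        rcases lt_trichotomy a b with hab | hab | hab
        · -- remainder (b - a) r^m + o ≥ r^m
          obtain ⟨c, rfl⟩ := Nat.exists_eq_add_of_lt hab
          have e1 : idx + a * ((r - 1) * r ^ m) = ((c + 1) * r ^ m + o) + r ^ (m + 1) * (P * r + a) := by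
            have : (a + c + 1) * r ^ m = a * r ^ m + (c + 1) * r ^ m := by ring
            have e5 : (P * r + a) * r ^ (m + 1) = r ^ (m + 1) * (P * r + a) := by ring
            omega
          have e2 : (c + 1) * r ^ m + o < r ^ (m + 1) := by
            calc (c + 1) * r ^ m + o < (c + 1) * r ^ m + r ^ m := by omega
              _ = (c + 2) * r ^ m := by ring
              _ ≤ r * r ^ m := Nat.mul_le_mul_right _ (by omega)
              _ = r ^ (m + 1) := by ring
          rw [e1, Nat.add_mul_mod_self_left, Nat.mod_eq_of_lt e2]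
          constructor
          · intro h
            have : r ^ m ≤ (c + 1) * r ^ m := Nat.le_mul_of_pos_left _ (by omega)
            omega
          · intro h; omega
        · subst hab
          have e1 : idx + a * ((r - 1) * r ^ m) = o + r ^ (m + 1) * (P * r + a) := by
            have e5 : (P * r + a) * r ^ (m + 1) = r ^ (m + 1) * (P * r + a) := by ring
            omega
          have e2 : o < r ^ (m + 1) := by
            calc o < r ^ m := hor
              _ ≤ r ^ (m + 1) := Nat.pow_le_pow_right (by omega) (by omega)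
          rw [e1, Nat.add_mul_mod_self_left, Nat.mod_eq_of_lt e2]
          simp [hor]
        · obtain ⟨c, rfl⟩ := Nat.exists_eq_add_of_lt hab
          -- remainder r^(m+1) - (c+1) r^m + o
          have hcr : c + 1 < r := by omega
          obtain ⟨d, hd⟩ := Nat.exists_eq_add_of_lt hcr
          -- r = c + 1 + d + 1
          have e1 : idx + (b + c + 1) * ((r - 1) * r ^ m) =
              ((d + 1) * r ^ m + o) + r ^ (m + 1) * (P * r + b + c) := by
            have e6 : (P * r + (b + c + 1)) * r ^ (m + 1) =
                r ^ (m + 1) * (P * r + b + c) + r ^ (m + 1) := by ring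
            have e7 : r ^ (m + 1) = (c + 1) * r ^ m + (d + 1) * r ^ m := by
              calc r ^ (m + 1) = r ^ m * r := pow_succ r m
                _ = r ^ m * (c + 1 + d + 1) := by rw [← hd]
                _ = _ := by ring
            have e8 : (b + c + 1) * r ^ m = b * r ^ m + (c + 1) * r ^ m := by ring
            omega
          have e2 : (d + 1) * r ^ m + o < r ^ (m + 1) := by
            calc (d + 1) * r ^ m + o < (d + 1) * r ^ m + r ^ m := by omega
              _ = (d + 2) * r ^ m := by ring
              _ ≤ r * r ^ m := Nat.mul_le_mul_right _ (by omega)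
              _ = r ^ (m + 1) := by ring
          rw [e1, Nat.add_mul_mod_self_left, Nat.mod_eq_of_lt e2]
          constructor
          · intro h
            have : r ^ m ≤ (d + 1) * r ^ m := Nat.le_mul_of_pos_left _ (by omega)
            omega
          · intro h; omega
      have hval : idx + b * ((r - 1) * r ^ m) = r ^ (m + 1) * (P * r + b) + o := by
        have hz : (idx + b * ((r - 1) * r ^ m)) + b * r ^ m =
            (P * r + b) * r ^ (m + 1) + (b * r ^ m + o) := by
          rw [hidx]
          obtain ⟨r', rfl⟩ : ∃ r', r = r' + 1 := ⟨r - 1, by omega⟩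
          rw [Nat.add_sub_cancel]
          ring
        have e5 : (P * r + b) * r ^ (m + 1) = r ^ (m + 1) * (P * r + b) := by ring
        omega
      have hob : o < r ^ (m + 1) :=
        lt_of_lt_of_le hor (Nat.pow_le_pow_right (by omega) (by omega))
      have hdiv : (idx + b * ((r - 1) * r ^ m)) / r ^ (m + 1) = P * r + b := by
        rw [hval, Nat.mul_add_div (hrp _), Nat.div_eq_of_lt hob, add_zero]
      have hmod : (idx + b * ((r - 1) * r ^ m)) % r ^ (m + 1) = o := by
        rw [hval, Nat.mul_add_mod, Nat.mod_eq_of_lt hob]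
      have hsrc : (P * r + b) * r ^ m + o = P * r ^ (m + 1) + O := by
        rw [hOeq]; ring
      have hbound : idx + b * ((r - 1) * r ^ m) < r ^ (L + 1) := by
        rw [hval]
        obtain ⟨c, hc⟩ := Nat.exists_eq_add_of_le hm
        -- L = m + 1 + c
        have hPlt : P < r ^ c := by
          rw [hP, Nat.div_lt_iff_lt_mul (hrp _)]
          calc idx < r ^ (L + 1) := hk1
            _ = r ^ c * r ^ (m + 1 + 1) := by rw [hc, ← pow_add]; congr 1; omega
        calc r ^ (m + 1) * (P * r + b) + o < r ^ (m + 1) * (P * r + b) + r ^ (m + 1) := by omega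
          _ = r ^ (m + 1) * (P * r + b + 1) := by ring
          _ ≤ r ^ (m + 1) * ((P + 1) * r) := by
              refine Nat.mul_le_mul_left _ ?_
              have : (P + 1) * r = P * r + r := by ring
              omega
          _ = (P + 1) * r ^ (m + 2) := by ring
          _ ≤ r ^ c * r ^ (m + 2) := Nat.mul_le_mul_right _ hPlt
          _ = r ^ (L + 1) := by rw [hc, ← pow_add]; congr 1; omega
      constructor
      · rintro ⟨⟨a, ha, _, h2, h3⟩, _⟩
        have hab := (hmain a ha).1 h2
        subst hab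
        refine ⟨hk1, hk2, ?_⟩
        rw [hdiv, hmod, hsrc] at h3
        exact h3
      · rintro ⟨_, _, h3⟩
        refine ⟨⟨b, hbr, hbound, (hmain b hbr).2 rfl, ?_⟩, hk1, hk2⟩
        rw [hdiv, hmod, hsrc]
        exact h3
    · constructor
      · rintro ⟨_, h1, h2⟩
        exact absurd ⟨h1, h2⟩ hk
      · rintro ⟨h1, h2, _⟩
        exact absurd ⟨h1, h2⟩ hk

lemma lane_comp (r w L x t : ℕ) (hr : 1 ≤ r) :
    lane w (comp r w L x) t = if t < r ^ L then lane w x (r * t) else 0 := by
  have hrp : ∀ a, 0 < r ^ a := fun a => Nat.pow_pos (by omega)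
  apply Nat.eq_of_testBit_eq
  intro i
  rw [testBit_lane]
  by_cases hi : i < w
  · simp only [hi, decide_true, Bool.true_and]
    rw [Bool.eq_iff_iff, comp_eq, testBit_compStage r w L x hr L le_rfl t i hi]
    split_ifs with ht
    · have h1 : t < r ^ (L + 1) := lt_of_lt_of_le ht (Nat.pow_le_pow_right (by omega) (by omega))
      rw [Nat.mod_eq_of_lt h1, Nat.div_eq_of_lt h1, zero_mul, zero_add, testBit_lane]
      simp [h1, ht, hi]
    · simp only [Nat.zero_testBit, Bool.false_eq_true, iff_false]
      rintro ⟨h1, h2, _⟩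
      rw [Nat.mod_eq_of_lt h1] at h2
      exact ht h2
  · simp only [hi, decide_false, Bool.false_and]
    split_ifs with ht
    · rw [testBit_lane]; simp [hi]
    · simp

end Pool.Agent.Lib_helper1.V
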