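/-!
# Vectorised arithmetic on lanes of a natural number

A natural number is regarded as a vector of lanes of `w` bits.  The functions of this file are
written with the binary operations of `Nat` only, so that the kernel evaluates them quickly.
They check a finite certificate for a weighted count of predecessors in the `3x+1` problem; what
they compute is proved in the files that import this one together with Mathlib.
-/

set_option maxRecDepth 100000

namespace Pool.Agent.Lib_helper1.V

noncomputable section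

/-- parameters of the certificate checker -/
structure Par where
  w : Nat      -- lane width
  s : Nat      -- vectors have `3^s` lanes
  j : Nat      -- number of low ternary digits, so the modulus is `3^(j+s)`
  L : Nat      -- `3^s ≤ 2^L`
  sh : Nat     -- the denominator is `2^sh`
  cb : Nat     -- `c < 2^cb`
  eb : Nat     -- `e < 2^eb`
  A : Nat
  B : Nat
  C : Nat
  q : Nat
  xb : Nat     -- bits of `x` in the power test
  f : Nat      -- fractional bits of `x`
  a : Nat      -- precision of the multipliers of `x`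
  sb : Nat     -- bits of `S` in the power test
  F : Nat      -- unit of `S`
  a2 : Nat     -- precision of the multipliers of `S`
  KR : Nat     -- starting factor
  Ks : List (Nat × Nat)

/-- `3^s` -/
def n3 (s : Nat) : Nat := Nat.pow 3 s

/-- `n` lanes equal to one -/
def ones (w n : Nat) : Nat :=
  Nat.div (Nat.sub (Nat.pow 2 (Nat.mul w n)) 1) (Nat.sub (Nat.pow 2 w) 1)

/-- `n` lanes equal to `2^b-1` -/
def full (w n b : Nat) : Nat := Nat.mul (ones w n) (Nat.sub (Nat.pow 2 b) 1)

/-- or of `r` copies of `z` shifted right by multiples of `d` -/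
def orShr (r d z : Nat) : Nat :=
  Nat.rec (motive := fun _ => Nat) z
    (fun a acc => Nat.lor acc (Nat.shiftRight z (Nat.mul (Nat.succ a) d))) (Nat.sub r 1)

/-- or of `r` copies of `z` shifted left by multiples of `d` -/
def orShl (r d z : Nat) : Nat :=
  Nat.rec (motive := fun _ => Nat) z
    (fun a acc => Nat.lor acc (Nat.shiftLeft z (Nat.mul (Nat.succ a) d))) (Nat.sub r 1)

/-- blocks of `q` bits, period `r*q`, `r^c` of them -/
def rep (r q c : Nat) : Nat :=
  Nat.rec (motive := fun _ => Nat) (Nat.sub (Nat.pow 2 q) 1)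
    (fun i R => orShl r (Nat.mul (Nat.mul r q) (Nat.pow r i)) R) c

/-- masks used by `comp` -/
def cmask (r w L i : Nat) : Nat := rep r (Nat.mul w (Nat.pow r i)) (Nat.sub L i)

/-- compress: lane `t` of the result is lane `r*t` of `x`, for `t < r^L` -/
def comp (r w L x : Nat) : Nat :=
  Nat.rec (motive := fun _ => Nat) (Nat.land x (cmask r w L 0))
    (fun i z => Nat.land (orShr r (Nat.mul w (Nat.mul (Nat.sub r 1) (Nat.pow r i))) z)
      (cmask r w L (Nat.succ i))) L

/-- the vector `x` (of `n` lanes) followed by itself -/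
def dbl (w n x : Nat) : Nat := Nat.add x (Nat.shiftLeft x (Nat.mul w n))

/-- lane `t` of the result is lane `(2*t) % n` of `x` -/
def S2 (w n L x : Nat) : Nat := comp 2 w L (dbl w n x)

/-- lane `t` of the result is lane `(t+q) % n` of `x` -/
def rot (w n q x : Nat) : Nat :=
  Nat.mod (Nat.shiftRight (dbl w n x) (Nat.mul w q)) (Nat.pow 2 (Nat.mul w n))

/-- table lookup, with the lanes cut to `eb` bits -/
def Em (P : Par) (Ed : Nat → Nat) (b : Nat) : Nat := Nat.land (Ed b) (full P.w (n3 P.s) P.eb)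

/-- one step of the recursion for `c`, on the residues with low digits `β` -/
def stepV (P : Par) (Ed : Nat → Nat) (β c' : Nat) : Nat :=
  Nat.land (Nat.shiftRight (S2 P.w (n3 P.s) P.L
    (cond (Nat.beq (Nat.mod β 9) 8)
      (Nat.add
        (Nat.mul (S2 P.w (n3 P.s) P.L (rot P.w (n3 P.s) (Nat.div (Nat.mul 4 β) (n3 P.j)) c')) P.A)
        (Nat.mul (rot P.w (n3 P.s) (Nat.div (Nat.div (Nat.mul 2 β) 3) (n3 (Nat.sub P.j 1)))
          (Em P Ed (Nat.mod (Nat.div (Nat.mul 2 β) 3) (n3 (Nat.sub P.j 1))))) P.C))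
      (cond (Nat.beq (Nat.mod β 9) 2)
        (S2 P.w (n3 P.s) P.L
          (Nat.add (Nat.mul (rot P.w (n3 P.s) (Nat.div (Nat.mul 4 β) (n3 P.j)) c') P.A)
          (Nat.mul (rot P.w (n3 P.s) (Nat.div (Nat.div (Nat.mul 4 β) 3) (n3 (Nat.sub P.j 1)))
          (Em P Ed (Nat.mod (Nat.div (Nat.mul 4 β) 3) (n3 (Nat.sub P.j 1))))) P.B)))
        (S2 P.w (n3 P.s) P.L
          (Nat.mul (rot P.w (n3 P.s) (Nat.div (Nat.mul 4 β) (n3 P.j)) c') P.A)))))
    P.sh) (full P.w (n3 P.s) P.cb)

/-- the vector of `c`-values at level `l` -/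
def Cv (P : Par) (Ed : Nat → Nat) (l β : Nat) : Nat :=
  Nat.rec (motive := fun _ => Nat → Nat) (fun _ => 0)
    (fun _ F β => stepV P Ed β (F (Nat.mod (Nat.mul 4 β) (n3 P.j)))) l β

/-- `x` or `y` according to the mask `m` -/
def sel (x y m : Nat) : Nat := Nat.xor x (Nat.land (Nat.xor x y) m)

/-- candidate for the new `x` in the power test -/
def yv (P : Par) (FX x K : Nat) : Nat := Nat.land (Nat.shiftRight (Nat.mul x K) P.a) FX

/-- comparison bits -/
def gv (P : Par) (ON EB y : Nat) : Nat := Nat.land (Nat.shiftRight (Nat.add y EB) P.xb) ON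

/-- the loop of the power test -/
def ptLoop (P : Par) (ON FX FS EB : Nat) (fin : Nat → Nat → Bool) (l : List (Nat × Nat)) :
    Nat → Nat → Bool :=
  List.rec (motive := fun _ => Nat → Nat → Bool) (fun x S => fin x S)
    (fun k _ ih x S =>
      ih (sel x (yv P FX x k.1)
          (Nat.mul (gv P ON EB (yv P FX x k.1)) (Nat.sub (Nat.pow 2 P.xb) 1)))
         (sel S (Nat.add (Nat.land (Nat.shiftRight (Nat.mul S k.2) P.a2) FS) ON)
            (Nat.mul (gv P ON EB (yv P FX x k.1)) (Nat.sub (Nat.pow 2 P.sb) 1)))) l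

/-- sum of the three thirds of `S`, `m` lanes each -/
def sum3 (w m S : Nat) : Nat :=
  Nat.add (Nat.mod S (Nat.pow 2 (Nat.mul w m)))
    (Nat.add (Nat.mod (Nat.shiftRight S (Nat.mul w m)) (Nat.pow 2 (Nat.mul w m)))
      (Nat.shiftRight S (Nat.mul w (Nat.mul 2 m))))

/-- final check of the power test -/
def ptFin (P : Par) (ON EB : Nat) (x S : Nat) : Bool :=
  and (Nat.beq (gv P ON EB x) ON)
    (Nat.beq (Nat.land (Nat.shiftRight (Nat.add
        (Nat.xor (full P.w (n3 (Nat.sub P.s 1)) (Nat.add P.sb 2)) (sum3 P.w (n3 (Nat.sub P.s 1)) S))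
        (Nat.mul (ones P.w (n3 (Nat.sub P.s 1))) (Nat.succ (Nat.mul 3 P.F)))) (Nat.add P.sb 2))
          (ones P.w (n3 (Nat.sub P.s 1))))
      (ones P.w (n3 (Nat.sub P.s 1))))

/-- complements of the `e`-lanes, for comparisons -/
def ebar (P : Par) (e3 : Nat) : Nat :=
  Nat.add (Nat.xor (Nat.mul (orShl 3 (Nat.mul P.w (n3 (Nat.sub P.s 1))) e3) (Nat.pow 2 P.f))
    (full P.w (n3 P.s) P.xb)) (ones P.w (n3 P.s))

/-- power test for the vector `c` against the `e`-lanes `e3` (`3^(s-1)` lanes) -/
def ptE (P : Par) (e3 c : Nat) : Bool :=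
  and (Nat.beq (Nat.land (Nat.shiftRight (Nat.add e3 (full P.w (n3 (Nat.sub P.s 1)) P.eb)) P.eb)
        (ones P.w (n3 (Nat.sub P.s 1)))) (ones P.w (n3 (Nat.sub P.s 1))))
    (ptLoop P (ones P.w (n3 P.s)) (full P.w (n3 P.s) P.xb) (full P.w (n3 P.s) P.sb)
      (ebar P e3) (ptFin P (ones P.w (n3 P.s)) (ebar P e3)) P.Ks
      (Nat.land (Nat.shiftRight (Nat.mul c P.KR) (Nat.sub P.a P.f)) (full P.w (n3 P.s) P.xb))
      (Nat.mul (ones P.w (n3 P.s)) (Nat.mul 3 P.F)))

/-- power test at the low digits `β` -/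
def pt (P : Par) (Ed : Nat → Nat) (β c : Nat) : Bool :=
  ptE P (comp 3 P.w (Nat.sub P.s 1)
    (Nat.shiftRight (Em P Ed (Nat.mod β (n3 (Nat.sub P.j 1))))
      (Nat.mul P.w (Nat.div β (n3 (Nat.sub P.j 1)))))) c

/-- division by four modulo `3^j` -/
def nxt (j inv4 β : Nat) : Nat := Nat.mod (Nat.mul inv4 β) (n3 j)

/-- iterates of `nxt` -/
def orb (j inv4 β i : Nat) : Nat := Nat.rec (motive := fun _ => Nat) β (fun _ b => nxt j inv4 b) i

/-- block of `cnt` tests, following `β` in the direction of division by four -/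
def blk (P : Par) (Ed : Nat → Nat) (inv4 : Nat) (cnt : Nat) (β c : Nat) : Bool :=
  Nat.rec (motive := fun _ => Nat → Nat → Bool) (fun _ _ => true)
    (fun _ ih β c => and (pt P Ed β c)
      (ih (nxt P.j inv4 β) (stepV P Ed (nxt P.j inv4 β) c))) cnt β c

/-- a block of tests starting at level `T` -/
def blkB (P : Par) (Ed : Nat → Nat) (inv4 cnt T β : Nat) : Bool := blk P Ed inv4 cnt β (Cv P Ed T β)

/-- set of the residues met by an orbit of `nxt`, added to the bit set `acc` -/
def cov (j inv4 : Nat) (N β acc : Nat) : Nat :=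
  Nat.rec (motive := fun _ => Nat → Nat → Nat) (fun _ acc => acc)
    (fun _ ih β acc => ih (nxt j inv4 β) (Nat.lor acc (Nat.shiftLeft 1 β))) N β acc

/-- set of the residues met by the orbits of length `N` of the members of a list -/
def covL (j inv4 N : Nat) (l : List Nat) : Nat :=
  List.rec (motive := fun _ => Nat) 0 (fun β _ acc => cov j inv4 N β acc) l

/-- the bit set `V` contains `3*i+2` for all `i < N` -/
def allIn (N V : Nat) : Bool :=
  Nat.rec (motive := fun _ => Bool) true
    (fun i acc => and acc (Nat.beq (Nat.mod (Nat.shiftRight V (Nat.succ (Nat.succ (Nat.mul 3 i)))) 2) 1)) N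

/-- the members of the list are less than `M` -/
def allLt (M : Nat) (l : List Nat) : Bool :=
  List.rec (motive := fun _ => Bool) true (fun β _ acc => and (Nat.ble (Nat.succ β) M) acc) l

/-- the blocks cover all residues -/
def covOK (j inv4 cnt : Nat) (l : List Nat) : Bool :=
  and (allLt (n3 j) l) (allIn (n3 (Nat.sub j 1)) (covL j inv4 cnt l))

/-- concatenation of pieces of 4000 bits -/
def cat (l : List Nat) : Nat :=
  List.rec (motive := fun _ => Nat) 0 (fun x _ acc => Nat.add x (Nat.shiftLeft acc 4000)) l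

/-- two fields of `eb` bits per lane, the second ones go to the lanes from `h` on -/
def unpack (w h eb P : Nat) : Nat :=
  Nat.add (Nat.land P (full w h eb))
    (Nat.shiftLeft (Nat.land (Nat.shiftRight P eb) (full w h eb)) (Nat.mul w h))

/-- `nf` fields of `fb` bits per lane, field `i` goes to the lanes from `h * i` on -/
def fields (w h fb nf P : Nat) : Nat :=
  Nat.rec (motive := fun _ => Nat) 0 (fun i acc => Nat.lor acc
    (Nat.shiftLeft (Nat.land (Nat.shiftRight P (Nat.mul fb i)) (full w h fb))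
      (Nat.mul w (Nat.mul h i)))) nf

/-- decoding of a chunk: field `x` stands for `lo + x * mul / 128` -/
def decode (w h fb nf lo mul P : Nat) : Nat :=
  Nat.add (Nat.land (Nat.shiftRight (Nat.mul (fields w h fb nf P) mul) 7)
    (full w (Nat.mul h nf) (Nat.sub w 7))) (Nat.mul (ones w (Nat.mul h nf)) lo)

/-- the part of the table with `b % 9 = 5`, computed from the residues `4 * b` -/
def E5 (P : Par) (Ei : Nat → Nat) (b : Nat) : Nat :=
  Nat.shiftRight (S2 P.w (n3 P.s) P.L (S2 P.w (n3 P.s) P.L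
    (Nat.mul (rot P.w (n3 P.s) (Nat.div (Nat.mul 4 b) (n3 (Nat.sub P.j 1)))
      (Nat.land (Ei (Nat.mod (Nat.mul 4 b) (n3 (Nat.sub P.j 1)))) (full P.w (n3 P.s) P.eb))) P.A)))
    P.sh

/-- table whose part with `b % 9 = 5` is computed -/
def EdOf (P : Par) (Ei : Nat → Nat) (b : Nat) : Nat :=
  cond (Nat.beq (Nat.mod b 9) 5) (E5 P Ei b) (Ei b)

/-- index of the residues that are `2` or `8` modulo `9` -/
def idx9 (b : Nat) : Nat := Nat.add (Nat.mul 2 (Nat.div b 9)) (Nat.div (Nat.mod b 9) 8)

end

end Pool.Agent.Lib_helper1.V
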