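import Mathlib
import Pool.Agent.Lib_helper1.VecDefs

namespace Pool.Agent.Lib_helper1.V

/-- lane `t` of `X` with lanes of width `w` -/
def lane (w X t : ℕ) : ℕ := (X >>> (w * t)) % 2 ^ w

lemma testBit_lane (w X t i : ℕ) :
    (lane w X t).testBit i = (decide (i < w) && X.testBit (w * t + i)) := by
  unfold lane
  rw [Nat.testBit_mod_two_pow, Nat.testBit_shiftRight]

lemma lane_lt (w X t : ℕ) : lane w X t < 2 ^ w := Nat.mod_lt _ (by positivity)

lemma lane_zero_left (w t : ℕ) : lane w 0 t = 0 := by simp [lane]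

lemma lane_land (w X Y t : ℕ) : lane w (X &&& Y) t = lane w X t &&& lane w Y t := by
  apply Nat.eq_of_testBit_eq
  intro i
  simp only [testBit_lane, Nat.testBit_and]
  cases decide (i < w) <;> simp

lemma lane_lor (w X Y t : ℕ) : lane w (X ||| Y) t = lane w X t ||| lane w Y t := by
  apply Nat.eq_of_testBit_eq
  intro i
  simp only [testBit_lane, Nat.testBit_or]
  cases decide (i < w) <;> simp

lemma lane_xor (w X Y t : ℕ) : lane w (X ^^^ Y) t = lane w X t ^^^ lane w Y t := by
  apply Nat.eq_of_testBit_eq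
  intro i
  simp only [testBit_lane, Nat.testBit_xor]
  cases decide (i < w) <;> simp

lemma lane_shr (w X r t : ℕ) : lane w (X >>> (w * r)) t = lane w X (t + r) := by
  apply Nat.eq_of_testBit_eq
  intro i
  simp only [testBit_lane, Nat.testBit_shiftRight]
  congr 2
  ring

lemma lane_shl (w X r t : ℕ) (hw : 0 < w) :
    lane w (X <<< (w * r)) t = if t < r then 0 else lane w X (t - r) := by
  apply Nat.eq_of_testBit_eq
  intro i
  rw [testBit_lane, Nat.testBit_shiftLeft]
  split_ifs with h
  · rcases lt_or_ge i w with hi | hi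
    · have : ¬ (w * r ≤ w * t + i) := by nlinarith
      simp [this]
    · simp [hi, not_lt.mpr hi]
  · push Not at h
    rw [testBit_lane]
    obtain ⟨d, rfl⟩ := Nat.exists_eq_add_of_le h
    have h1 : w * r ≤ w * (r + d) + i := by nlinarith
    have h2 : w * (r + d) + i - w * r = w * (r + d - r) + i := by
      rw [Nat.add_sub_cancel_left]; 
      have : w * (r + d) = w * r + w * d := by ring
      omega
    simp only [ge_iff_le, h1, decide_true, Bool.true_and, h2]

/-- splitting off the lowest lane -/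
lemma lane_zero_eq (w X : ℕ) : lane w X 0 = X % 2 ^ w := by simp [lane]

lemma lane_succ_eq (w X t : ℕ) : lane w X (t + 1) = lane w (X / 2 ^ w) t := by
  have h := lane_shr w X 1 t
  rw [mul_one, Nat.shiftRight_eq_div_pow] at h
  exact h.symm

lemma split_low (w X : ℕ) : X = lane w X 0 + 2 ^ w * (X / 2 ^ w) := by
  rw [lane_zero_eq]
  exact (Nat.mod_add_div X (2 ^ w)).symm

lemma lane_of_split (w a Y t : ℕ) (ha : a < 2 ^ w) :
    lane w (a + 2 ^ w * Y) t = if t = 0 then a else lane w Y (t - 1) := by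
  split_ifs with h
  · subst h
    rw [lane_zero_eq, Nat.add_mul_mod_self_left, Nat.mod_eq_of_lt ha]
  · obtain ⟨t, rfl⟩ := Nat.exists_eq_succ_of_ne_zero h
    rw [Nat.succ_eq_add_one, lane_succ_eq, Nat.add_sub_cancel]
    congr 1
    rw [Nat.add_mul_div_left _ _ (by positivity), Nat.div_eq_of_lt ha, zero_add]

lemma lane_add (w : ℕ) : ∀ (t X Y : ℕ), (∀ i, lane w X i + lane w Y i < 2 ^ w) →
    lane w (X + Y) t = lane w X t + lane w Y t := by
  have key : ∀ X Y : ℕ, lane w X 0 + lane w Y 0 < 2 ^ w →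
      X + Y = (lane w X 0 + lane w Y 0) + 2 ^ w * (X / 2 ^ w + Y / 2 ^ w) := by
    intro X Y _
    conv_lhs => rw [split_low w X, split_low w Y]
    ring
  intro t
  induction t with
  | zero =>
    intro X Y h
    rw [key X Y (h 0), lane_of_split _ _ _ _ (h 0)]
    simp
  | succ t ih =>
    intro X Y h
    rw [key X Y (h 0), lane_of_split _ _ _ _ (h 0)]
    simp only [Nat.add_eq_zero_iff, one_ne_zero, and_false, if_false, Nat.add_sub_cancel]
    rw [ih, lane_succ_eq, lane_succ_eq]
    intro i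
    rw [← lane_succ_eq, ← lane_succ_eq]
    exact h (i + 1)

lemma lane_mul (w K : ℕ) : ∀ (t X : ℕ), (∀ i, lane w X i * K < 2 ^ w) →
    lane w (X * K) t = lane w X t * K := by
  have key : ∀ X : ℕ, X * K = (lane w X 0 * K) + 2 ^ w * (X / 2 ^ w * K) := by
    intro X
    conv_lhs => rw [split_low w X]
    ring
  intro t
  induction t with
  | zero =>
    intro X h
    rw [key X, lane_of_split _ _ _ _ (h 0)]
    simp
  | succ t ih =>
    intro X h
    rw [key X, lane_of_split _ _ _ _ (h 0)]
    simp only [Nat.add_eq_zero_iff, one_ne_zero, and_false, if_false, Nat.add_sub_cancel]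
    rw [ih, lane_succ_eq]
    intro i
    rw [← lane_succ_eq]
    exact h (i + 1)

/-- the lanes of `X` are `f 0, …, f (n-1)`, the others are zero -/
def Lanes (w n X : ℕ) (f : ℕ → ℕ) : Prop := ∀ t, lane w X t = if t < n then f t else 0

lemma Lanes.congr {w n X : ℕ} {f g : ℕ → ℕ} (h : Lanes w n X f) (hfg : ∀ t < n, f t = g t) :
    Lanes w n X g := by
  intro t
  rw [h t]
  split_ifs with ht
  · exact hfg t ht
  · rfl

lemma Lanes.lt {w n X : ℕ} {f : ℕ → ℕ} (h : Lanes w n X f) {t : ℕ} (ht : t < n) : f t < 2 ^ w := by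
  have := lane_lt w X t
  rw [h t, if_pos ht] at this
  exact this

lemma Lanes.land {w n X Y : ℕ} {f g : ℕ → ℕ} (hX : Lanes w n X f) (hY : Lanes w n Y g) :
    Lanes w n (X &&& Y) (fun t => f t &&& g t) := by
  intro t
  rw [lane_land, hX t, hY t]
  split_ifs <;> simp

lemma Lanes.xor {w n X Y : ℕ} {f g : ℕ → ℕ} (hX : Lanes w n X f) (hY : Lanes w n Y g) :
    Lanes w n (X ^^^ Y) (fun t => f t ^^^ g t) := by
  intro t
  rw [lane_xor, hX t, hY t]
  split_ifs <;> simp

lemma Lanes.add {w n X Y : ℕ} {f g : ℕ → ℕ} (hX : Lanes w n X f) (hY : Lanes w n Y g)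
    (h : ∀ t < n, f t + g t < 2 ^ w) :
    Lanes w n (X + Y) (fun t => f t + g t) := by
  intro t
  rw [lane_add, hX t, hY t]
  · split_ifs <;> simp
  · intro i
    rw [hX i, hY i]
    split_ifs with hi
    · exact h i hi
    · simp

lemma Lanes.mul {w n X : ℕ} {f : ℕ → ℕ} (hX : Lanes w n X f) (K : ℕ)
    (h : ∀ t < n, f t * K < 2 ^ w) :
    Lanes w n (X * K) (fun t => f t * K) := by
  intro t
  rw [lane_mul, hX t]
  · split_ifs <;> simp
  · intro i
    rw [hX i]
    split_ifs with hi
    · exact h i hi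
    · simp

/-- two numbers with the same lanes are equal -/
lemma Lanes.unique {w n X Y : ℕ} {f : ℕ → ℕ} (hw : 0 < w) (hX : Lanes w n X f)
    (hY : Lanes w n Y f) : X = Y := by
  apply Nat.eq_of_testBit_eq
  intro i
  have h : lane w X (i / w) = lane w Y (i / w) := by rw [hX, hY]
  have h2 := congrArg (fun z => z.testBit (i % w)) h
  simp only [testBit_lane, Nat.mod_lt _ hw, decide_true, Bool.true_and, Nat.div_add_mod] at h2
  exact h2

end Pool.Agent.Lib_helper1.V
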