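import Pool.Agent.Lib_helper1.VecTest
import Pool.Agent.Lib_helper2.CollatzDefs

namespace Pool.Agent.Lib_helper1.V

open Pool.Agent.Lib_helper2.Collatz

variable {P : Par} {Ed : ℕ → ℕ}

lemma nxt_eq (j inv4 β : ℕ) : nxt j inv4 β = inv4 * β % 3 ^ j := rfl

lemma orb_zero (j inv4 β : ℕ) : orb j inv4 β 0 = β := rfl

lemma orb_succ (j inv4 β i : ℕ) : orb j inv4 β (i + 1) = nxt j inv4 (orb j inv4 β i) := rfl

lemma orb_nxt (j inv4 β i : ℕ) : orb j inv4 (nxt j inv4 β) i = orb j inv4 β (i + 1) := by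
  induction i with
  | zero => rfl
  | succ i ih =>
    show nxt j inv4 (orb j inv4 (nxt j inv4 β) i) = nxt j inv4 (orb j inv4 β (i + 1))
    rw [ih]

lemma blk_succ (inv4 cnt β c : ℕ) : blk P Ed inv4 (cnt + 1) β c =
    (pt P Ed β c && blk P Ed inv4 cnt (nxt P.j inv4 β) (stepV P Ed (nxt P.j inv4 β) c)) := rfl

lemma blk_sound {inv4 : ℕ} (hinv : 4 * inv4 % 3 ^ P.j = 1) : ∀ (cnt l β : ℕ), β < 3 ^ P.j →
    blk P Ed inv4 cnt β (Cv P Ed l β) = true →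
    ∀ i < cnt, ∃ l' ≤ l + cnt, orb P.j inv4 β i < 3 ^ P.j ∧
      pt P Ed (orb P.j inv4 β i) (Cv P Ed l' (orb P.j inv4 β i)) = true := by
  intro cnt
  induction cnt with
  | zero => intro l β _ _ i hi; omega
  | succ cnt ih =>
    intro l β hβ h i hi
    rw [blk_succ, Bool.and_eq_true] at h
    obtain ⟨h1, h2⟩ := h
    have hβ' : nxt P.j inv4 β < 3 ^ P.j := by
      rw [nxt_eq]; exact Nat.mod_lt _ (by positivity)
    have h4 : 4 * nxt P.j inv4 β % 3 ^ P.j = β := by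
      rw [nxt_eq, Nat.mul_mod_mod, ← mul_assoc, Nat.mul_mod, hinv, one_mul, Nat.mod_mod,
        Nat.mod_eq_of_lt hβ]
    have h5 : stepV P Ed (nxt P.j inv4 β) (Cv P Ed l β) = Cv P Ed (l + 1) (nxt P.j inv4 β) := by
      rw [Cv_succ, h4]
    rw [h5] at h2
    rcases Nat.eq_zero_or_pos i with rfl | hi0
    · exact ⟨l, by omega, hβ, h1⟩
    · obtain ⟨i, rfl⟩ := Nat.exists_eq_succ_of_ne_zero hi0.ne'
      obtain ⟨l', hl', h6, h7⟩ := ih (l + 1) _ hβ' h2 i (by omega)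
      rw [orb_nxt] at h6 h7
      exact ⟨l', by omega, h6, h7⟩

lemma cov_succ (j inv4 N β acc : ℕ) : cov j inv4 (N + 1) β acc =
    cov j inv4 N (nxt j inv4 β) (acc ||| (1 <<< β)) := rfl

lemma cov_sound (j inv4 : ℕ) : ∀ (N β acc b : ℕ), (cov j inv4 N β acc).testBit b = true →
    acc.testBit b = true ∨ ∃ i < N, orb j inv4 β i = b := by
  intro N
  induction N with
  | zero => intro β acc b h; exact Or.inl h
  | succ N ih =>
    intro β acc b h
    rw [cov_succ] at h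
    rcases ih _ _ _ h with h1 | ⟨i, hi, h1⟩
    · rw [Nat.testBit_or, Bool.or_eq_true] at h1
      rcases h1 with h1 | h1
      · exact Or.inl h1
      · right
        refine ⟨0, by omega, ?_⟩
        rw [Nat.testBit_shiftLeft, Bool.and_eq_true, decide_eq_true_eq] at h1
        obtain ⟨h2, h3⟩ := h1
        have : b - β = 0 := by
          by_contra hne
          obtain ⟨d, hd⟩ := Nat.exists_eq_succ_of_ne_zero hne
          rw [hd] at h3
          simp [Nat.testBit_succ] at h3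
        rw [orb_zero]; omega
    · right
      rw [orb_nxt] at h1
      exact ⟨i + 1, by omega, h1⟩

lemma covL_sound (j inv4 N : ℕ) : ∀ (l : List ℕ) (b : ℕ), (covL j inv4 N l).testBit b = true →
    ∃ β ∈ l, ∃ i < N, orb j inv4 β i = b := by
  intro l
  induction l with
  | nil =>
    intro b h
    have e : covL j inv4 N [] = 0 := rfl
    rw [e] at h
    simp at h
  | cons β l ih =>
    intro b h
    have e : covL j inv4 N (β :: l) = cov j inv4 N β (covL j inv4 N l) := rfl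
    rw [e] at h
    rcases cov_sound j inv4 N _ _ _ h with h1 | ⟨i, hi, h1⟩
    · obtain ⟨β', h2, i, hi, h3⟩ := ih b h1
      exact ⟨β', by simp [h2], i, hi, h3⟩
    · exact ⟨β, by simp, i, hi, h1⟩

lemma allIn_sound : ∀ (N V : ℕ), allIn N V = true → ∀ i < N, V.testBit (3 * i + 2) = true := by
  intro N V
  induction N with
  | zero => intro _ i hi; omega
  | succ N ih =>
    intro h i hi
    have e : allIn (N + 1) V = (allIn N V && Nat.beq ((V >>> (3 * N + 2)) % 2) 1) := rfl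
    rw [e, Bool.and_eq_true, Nat.beq_eq] at h
    rcases Nat.lt_succ_iff_lt_or_eq.1 hi with h1 | h1
    · exact ih h.1 i h1
    · rw [h1, Nat.testBit_eq_decide_div_mod_eq, ← Nat.shiftRight_eq_div_pow, decide_eq_true_eq]
      exact h.2

lemma allLt_sound (M : ℕ) : ∀ l : List ℕ, allLt M l = true → ∀ b ∈ l, b < M := by
  intro l
  induction l with
  | nil => intro _ b hb; simp at hb
  | cons β l ih =>
    intro h b hb
    have e : allLt M (β :: l) = (Nat.ble (β + 1) M && allLt M l) := rfl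
    rw [e, Bool.and_eq_true, Nat.ble_eq] at h
    rcases List.mem_cons.1 hb with rfl | hb
    · omega
    · exact ih h.2 b hb

lemma covOK_sound {j inv4 cnt : ℕ} {l : List ℕ} (hj : 2 ≤ j) (h : covOK j inv4 cnt l = true) :
    (∀ b ∈ l, b < 3 ^ j) ∧
      ∀ β < 3 ^ j, β % 3 = 2 → ∃ b ∈ l, ∃ i < cnt, orb j inv4 b i = β := by
  have e : covOK j inv4 cnt l = (allLt (3 ^ j) l && allIn (3 ^ (j - 1)) (covL j inv4 cnt l)) := rfl
  rw [e, Bool.and_eq_true] at h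
  refine ⟨allLt_sound _ _ h.1, ?_⟩
  intro β hβ h2
  have hjj : 3 ^ j = 3 * 3 ^ (j - 1) := by
    rw [← pow_succ']; congr 1; omega
  have h3 := allIn_sound _ _ h.2 (β / 3) (by omega)
  have h4 : 3 * (β / 3) + 2 = β := by omega
  rw [h4] at h3
  exact covL_sound _ _ _ _ _ h3

/-- the symmetric inequality -/
lemma pow_final {q F e v0 v1 v2 S0 S1 S2 : ℕ} (hF : 0 < F) (hS : S0 + (S1 + S2) ≤ 3 * F)
    (h0 : F * e ^ q ≤ S0 * v0 ^ q) (h1 : F * e ^ q ≤ S1 * v1 ^ q) (h2 : F * e ^ q ≤ S2 * v2 ^ q) :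
    e ^ q * (v0 ^ q * v1 ^ q + v0 ^ q * v2 ^ q + v1 ^ q * v2 ^ q) ≤
      3 * (v0 ^ q * v1 ^ q * v2 ^ q) := by
  refine Nat.le_of_mul_le_mul_left ?_ hF
  calc F * (e ^ q * (v0 ^ q * v1 ^ q + v0 ^ q * v2 ^ q + v1 ^ q * v2 ^ q))
      = (F * e ^ q) * (v0 ^ q * v1 ^ q) + (F * e ^ q) * (v0 ^ q * v2 ^ q) +
        (F * e ^ q) * (v1 ^ q * v2 ^ q) := by ring
    _ ≤ (S2 * v2 ^ q) * (v0 ^ q * v1 ^ q) + (S1 * v1 ^ q) * (v0 ^ q * v2 ^ q) +
        (S0 * v0 ^ q) * (v1 ^ q * v2 ^ q) :=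
        Nat.add_le_add (Nat.add_le_add (Nat.mul_le_mul_right _ h2) (Nat.mul_le_mul_right _ h1))
          (Nat.mul_le_mul_right _ h0)
    _ = (S0 + (S1 + S2)) * (v0 ^ q * v1 ^ q * v2 ^ q) := by ring
    _ ≤ (3 * F) * (v0 ^ q * v1 ^ q * v2 ^ q) := Nat.mul_le_mul_right _ hS
    _ = F * (3 * (v0 ^ q * v1 ^ q * v2 ^ q)) := by ring

lemma eF_period (hj : 2 ≤ P.j) (hs : 1 ≤ P.s) (b y : ℕ) :
    eF P Ed (b + 3 ^ (P.j + P.s - 1) * y) = eF P Ed b := by
  have h1 : P.j + P.s - 1 = (P.j - 1) + P.s := by omega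
  have h2 : b + 3 ^ (P.j + P.s - 1) * y = b + 3 ^ (P.j - 1) * (3 ^ P.s * y) := by
    rw [h1, pow_add]; ring
  rw [h2, eF_add]
  unfold eF
  rw [Nat.add_comm (3 ^ P.s * y), Nat.add_mul_mod_self_left]

/-- the data checked by the kernel -/
structure Checked (P : Par) (Ed : ℕ → ℕ) (inv4 cnt T : ℕ) (l : List ℕ) : Prop where
  g1 : Good1 P
  g2 : Good2 P
  hinv : 4 * inv4 % 3 ^ P.j = 1
  hcov : covOK P.j inv4 cnt l = true
  hblk : ∀ b ∈ l, blkB P Ed inv4 cnt T b = true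

/-- the function `c` of the certificate -/
def cF (P : Par) (Ed : ℕ → ℕ) (L m : ℕ) : ℕ := cc P Ed L (m % 3 ^ (P.j + P.s))

/-- pointwise consequences of the tests -/
lemma Checked.main {inv4 cnt T : ℕ} {l : List ℕ} (h : Checked P Ed inv4 cnt T l) (b : ℕ)
    (hb : b < 3 ^ (P.j + P.s - 1)) (hb2 : b % 3 = 2) :
    1 ≤ eF P Ed b ∧ ∃ S0 S1 S2, S0 + (S1 + S2) ≤ 3 * P.F ∧
      P.F * eF P Ed b ^ P.q ≤ S0 * cc P Ed (T + cnt) b ^ P.q ∧
      P.F * eF P Ed b ^ P.q ≤ S1 * cc P Ed (T + cnt) (b + 3 ^ (P.j + P.s - 1)) ^ P.q ∧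
      P.F * eF P Ed b ^ P.q ≤ S2 * cc P Ed (T + cnt) (b + 2 * 3 ^ (P.j + P.s - 1)) ^ P.q := by
  have hj := h.g1.hj
  have hs := h.g1.hs
  have hpj : 0 < 3 ^ P.j := by positivity
  obtain ⟨hlt, hcov⟩ := covOK_sound hj h.hcov
  have hm : (b % 3 ^ P.j) % 3 = 2 := by
    rw [Nat.mod_mod_of_dvd _ (dvd_pow_self 3 (by omega))]; exact hb2
  obtain ⟨b0, hb0, i, hi, horb⟩ := hcov (b % 3 ^ P.j) (Nat.mod_lt _ hpj) hm
  obtain ⟨l', hl', h6, h7⟩ := blk_sound h.hinv cnt T b0 (hlt b0 hb0) (h.hblk b0 hb0) i hi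
  rw [horb] at h6 h7
  have hL := lanes_Cv (Ed := Ed) h.g1 l' (b % 3 ^ P.j) h6
  have hk : P.j + P.s - 1 = P.j + (P.s - 1) := by omega
  have ht : b / 3 ^ P.j < 3 ^ (P.s - 1) := by
    rw [Nat.div_lt_iff_lt_mul hpj, ← pow_add, add_comm, ← hk]; exact hb
  obtain ⟨k1, S0, S1, S2, k2, k3, k4, k5⟩ :=
    pt_sound h.g1 h.g2 h6 hL (fun t _ => cc_lt h.g1 _ _) h7 _ ht
  have e0 : b % 3 ^ P.j + 3 ^ P.j * (b / 3 ^ P.j) = b := Nat.mod_add_div _ _
  have e1 : b % 3 ^ P.j + 3 ^ P.j * (b / 3 ^ P.j + 3 ^ (P.s - 1)) = b + 3 ^ (P.j + P.s - 1) := by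
    rw [hk, pow_add, mul_add, ← add_assoc, e0]
  have e2 : b % 3 ^ P.j + 3 ^ P.j * (b / 3 ^ P.j + 2 * 3 ^ (P.s - 1)) =
      b + 2 * 3 ^ (P.j + P.s - 1) := by
    rw [hk, pow_add, mul_add, ← add_assoc, e0]; ring
  rw [e0] at k1 k3 k4 k5
  rw [e1] at k4
  rw [e2] at k5
  have hmono := fun m => cc_mono (P := P) (Ed := Ed) hl' m
  refine ⟨k1, S0, S1, S2, k2, ?_, ?_, ?_⟩
  · exact le_trans k3 (Nat.mul_le_mul_left _ (Nat.pow_le_pow_left (hmono _) _))
  · exact le_trans k4 (Nat.mul_le_mul_left _ (Nat.pow_le_pow_left (hmono _) _))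
  · exact le_trans k5 (Nat.mul_le_mul_left _ (Nat.pow_le_pow_left (hmono _) _))

lemma cF_pos_aux {inv4 cnt T : ℕ} {l : List ℕ} (h : Checked P Ed inv4 cnt T l) (hq : 1 ≤ P.q)
    {e S v : ℕ} (he : 1 ≤ e) (hv : P.F * e ^ P.q ≤ S * v ^ P.q) : 0 < v := by
  rcases Nat.eq_zero_or_pos v with h0 | h0
  · exfalso
    rw [h0, zero_pow (by omega), mul_zero] at hv
    have h1 : 0 < P.F * e ^ P.q := Nat.mul_pos h.g2.hF (Nat.pow_pos he)
    omega
  · exact h0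

/-- the certificate -/
theorem Checked.certOK {inv4 cnt T : ℕ} {l : List ℕ} (h : Checked P Ed inv4 cnt T l)
    (hq : 1 ≤ P.q) {K : Cert} (hKk : K.k = P.j + P.s) (hKq : K.q = P.q) (hKA : K.A = P.A)
    (hKB : K.B = P.B) (hKC : K.C = P.C) (hKD : K.D = 2 ^ P.sh)
    (hu : 0 < K.u) (huv : K.u < K.v) (hBpos : 0 < K.B) (hCpos : 0 < K.C) (hP2pos : 0 < K.P2)
    (hPP : K.P2 < K.P1)
    (hA : K.A ^ K.v * 4 ^ K.u ≤ K.D ^ K.v)
    (hB : (K.B * K.P1) ^ K.v * 4 ^ K.u ≤ (K.D * K.P2) ^ K.v * 3 ^ K.u)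
    (hC : (K.C * K.P1) ^ K.v * 2 ^ K.u ≤ (K.D * K.P2) ^ K.v * 3 ^ K.u) :
    CertOK K (cF P Ed (T + cnt)) (eF P Ed) := by
  have hj := h.g1.hj
  have hs := h.g1.hs
  set M := P.j + P.s with hM
  have hMM : 3 ^ M = 3 * 3 ^ (M - 1) := by
    rw [← pow_succ']; congr 1; omega
  have hM9 : ∃ y, 3 ^ M = 9 * y := ⟨3 ^ (M - 2), by
    have : M = 2 + (M - 2) := by omega
    conv_lhs => rw [this, pow_add]
    norm_num⟩
  have hM1p : 0 < 3 ^ (M - 1) := by positivity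
  have hMp : 0 < 3 ^ M := by positivity
  have hstep : ∀ a, K.D * cF P Ed (T + cnt) a ≤
      K.A * cF P Ed (T + cnt) (4 * a) + eT P Ed (a % 3 ^ M) := by
    intro a
    have h1 := cc_mono_succ (P := P) (Ed := Ed) (T + cnt) (a % 3 ^ M)
    rw [cc_succ] at h1
    have h2 : 4 * (a % 3 ^ M) % 3 ^ M = 4 * a % 3 ^ M := Nat.mul_mod_mod _ _ _
    rw [← hM, h2] at h1
    unfold cF
    rw [hKD, hKA, ← hM]
    calc 2 ^ P.sh * cc P Ed (T + cnt) (a % 3 ^ M) ≤ 2 ^ P.sh * _ := Nat.mul_le_mul_left _ h1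
      _ ≤ _ := Nat.mul_div_le _ _
  have hmod9 : ∀ a, (a % 3 ^ M) % 9 = a % 9 := by
    intro a
    obtain ⟨y, hy⟩ := hM9
    rw [hy]
    exact Nat.mod_mul_right_mod _ _ _
  have hcF : ∀ x, x < 3 ^ M → cF P Ed (T + cnt) x = cc P Ed (T + cnt) x := by
    intro x hx
    unfold cF
    rw [← hM, Nat.mod_eq_of_lt hx]
  have heper : ∀ b y, eF P Ed (b + 3 ^ (M - 1) * y) = eF P Ed b := fun b y => eF_period hj hs b y
  have hcper : ∀ a y, cF P Ed (T + cnt) (a + 3 ^ M * y) = cF P Ed (T + cnt) a := by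
    intro a y
    unfold cF
    rw [← hM, Nat.add_mul_mod_self_left]
  have hmod3 : ∀ b, (b % 3 ^ (M - 1)) % 3 = b % 3 := by
    intro b
    rw [Nat.mod_mod_of_dvd _ (dvd_pow_self 3 (by omega))]
  have hmain := fun b hb hb2 => h.main b hb hb2
  simp only [← hM] at hmain
  -- the three values at the lifts
  have hlift : ∀ b, b % 3 = 2 → ∃ v0 v1 v2 S0 S1 S2 : ℕ, S0 + (S1 + S2) ≤ 3 * P.F ∧
      P.F * eF P Ed b ^ P.q ≤ S0 * v0 ^ P.q ∧ P.F * eF P Ed b ^ P.q ≤ S1 * v1 ^ P.q ∧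
      P.F * eF P Ed b ^ P.q ≤ S2 * v2 ^ P.q ∧ 1 ≤ eF P Ed b ∧
      cF P Ed (T + cnt) b = v0 ∧ cF P Ed (T + cnt) (b + 3 ^ (M - 1)) = v1 ∧
      cF P Ed (T + cnt) (b + 2 * 3 ^ (M - 1)) = v2 := by
    intro b hb
    set b' := b % 3 ^ (M - 1) with hb'
    have hb'lt : b' < 3 ^ (M - 1) := Nat.mod_lt _ hM1p
    have hb'2 : b' % 3 = 2 := by rw [hb', hmod3]; exact hb
    obtain ⟨k1, S0, S1, S2, k2, k3, k4, k5⟩ := hmain b' hb'lt hb'2
    have heb : eF P Ed b = eF P Ed b' := by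
      conv_lhs => rw [← Nat.mod_add_div b (3 ^ (M - 1))]
      rw [heper]
    rw [← heb] at k1 k3 k4 k5
    rw [← hcF _ (by omega)] at k3 k4 k5
    set y := b / 3 ^ (M - 1) with hy
    have hby : b = b' + 3 ^ (M - 1) * y := (Nat.mod_add_div _ _).symm
    -- value at b + i * 3^(M-1)
    have hval : ∀ i, cF P Ed (T + cnt) (b + i * 3 ^ (M - 1)) =
        cF P Ed (T + cnt) (b' + ((y + i) % 3) * 3 ^ (M - 1)) := by
      intro i
      have e1 : b + i * 3 ^ (M - 1) =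
          (b' + ((y + i) % 3) * 3 ^ (M - 1)) + 3 ^ M * ((y + i) / 3) := by
        have := Nat.mod_add_div (y + i) 3
        calc b + i * 3 ^ (M - 1) = b' + 3 ^ (M - 1) * (y + i) := by rw [hby]; ring
          _ = b' + 3 ^ (M - 1) * ((y + i) % 3 + 3 * ((y + i) / 3)) := by rw [this]
          _ = _ := by rw [hMM]; ring
      rw [e1, hcper]
    have v0 := hval 0
    have v1 := hval 1
    have v2 := hval 2
    rw [zero_mul, add_zero] at v0
    rw [one_mul] at v1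
    have hy3 : y % 3 = 0 ∨ y % 3 = 1 ∨ y % 3 = 2 := by omega
    have z0 : b' + 0 * 3 ^ (M - 1) = b' := by ring
    have z1 : b' + 1 * 3 ^ (M - 1) = b' + 3 ^ (M - 1) := by ring
    rcases hy3 with hy3 | hy3 | hy3
    · have a0 : (y + 0) % 3 = 0 := by omega
      have a1 : (y + 1) % 3 = 1 := by omega
      have a2 : (y + 2) % 3 = 2 := by omega
      rw [a0, z0] at v0
      rw [a1, z1] at v1
      rw [a2] at v2
      exact ⟨_, _, _, S0, S1, S2, k2, k3, k4, k5, k1, v0, v1, v2⟩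
    · have a0 : (y + 0) % 3 = 1 := by omega
      have a1 : (y + 1) % 3 = 2 := by omega
      have a2 : (y + 2) % 3 = 0 := by omega
      rw [a0, z1] at v0
      rw [a1] at v1
      rw [a2, z0] at v2
      exact ⟨_, _, _, S1, S2, S0, by omega, k4, k5, k3, k1, v0, v1, v2⟩
    · have a0 : (y + 0) % 3 = 2 := by omega
      have a1 : (y + 1) % 3 = 0 := by omega
      have a2 : (y + 2) % 3 = 1 := by omega
      rw [a0] at v0
      rw [a1, z0] at v1
      rw [a2, z1] at v2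
      exact ⟨_, _, _, S2, S0, S1, by omega, k5, k3, k4, k1, v0, v1, v2⟩
  constructor
  · rw [hKk]; omega
  · rw [hKq]; exact hq
  · exact hu
  · exact huv
  · rw [hKA]; exact h.g1.hA
  · exact hBpos
  · exact hCpos
  · rw [hKD]; positivity
  · exact hP2pos
  · exact hPP
  · intro a
    rw [hKk]
    have := hcper a 1
    rwa [mul_one] at this
  · intro b
    rw [hKk]
    have := heper b 1
    rwa [mul_one] at this
  · -- positivity of c
    intro a ha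
    obtain ⟨v0, v1, v2, S0, S1, S2, _, k3, _, _, k1, w0, _, _⟩ := hlift a ha
    rw [w0]
    exact cF_pos_aux h hq k1 k3
  · intro b hb
    obtain ⟨v0, v1, v2, S0, S1, S2, _, _, _, _, k1, _, _, _⟩ := hlift b hb
    exact k1
  · intro a ha
    refine le_trans (hstep a) ?_
    have h9 := hmod9 a
    have : eT P Ed (a % 3 ^ M) = 0 := by
      unfold eT
      rw [if_neg (by omega), if_neg (by omega)]
    omega
  · intro a ha
    refine le_trans (hstep a) (Nat.add_le_add_left ?_ _)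
    have h9 := hmod9 a
    unfold eT
    rw [if_neg (by omega), if_pos (by omega), hKB]
    have e1 : (4 * a - 2) / 3 = 4 * (a % 3 ^ M) / 3 + 3 ^ (M - 1) * (4 * (a / 3 ^ M)) := by
      have e2 : (4 * a - 2) / 3 = 4 * a / 3 := by omega
      have e3 : 4 * a = 4 * (a % 3 ^ M) + 3 * (3 ^ (M - 1) * (4 * (a / 3 ^ M))) := by
        have e4 := Nat.mod_add_div a (3 ^ M)
        calc 4 * a = 4 * (a % 3 ^ M + 3 ^ M * (a / 3 ^ M)) := by rw [e4]
          _ = _ := by rw [hMM]; ring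
      rw [e2, e3, Nat.add_mul_div_left _ _ (by norm_num)]
    rw [e1, heper]
  · intro a ha
    refine le_trans (hstep a) (Nat.add_le_add_left ?_ _)
    have h9 := hmod9 a
    unfold eT
    rw [if_pos (by omega), hKC]
    have e1 : (2 * a - 1) / 3 = 2 * (a % 3 ^ M) / 3 + 3 ^ (M - 1) * (2 * (a / 3 ^ M)) := by
      have e2 : (2 * a - 1) / 3 = 2 * a / 3 := by omega
      have e3 : 2 * a = 2 * (a % 3 ^ M) + 3 * (3 ^ (M - 1) * (2 * (a / 3 ^ M))) := by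
        have e4 := Nat.mod_add_div a (3 ^ M)
        calc 2 * a = 2 * (a % 3 ^ M + 3 ^ M * (a / 3 ^ M)) := by rw [e4]
          _ = _ := by rw [hMM]; ring
      rw [e2, e3, Nat.add_mul_div_left _ _ (by norm_num)]
    rw [e1, heper]
  · intro b hb
    rw [hKk, hKq]
    obtain ⟨v0, v1, v2, S0, S1, S2, k2, k3, k4, k5, k1, w0, w1, w2⟩ := hlift b hb
    rw [w0, w1, w2]
    exact pow_final h.g2.hF k2 k3 k4 k5
  · exact hA
  · exact hB
  · exact hC

end Pool.Agent.Lib_helper1.V
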