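import Pool.Agent.Lib_helper1.VecStep

namespace Pool.Agent.Lib_helper1.V

/-- numerical conditions used for the power test -/
structure Good2 (P : Par) : Prop where
  hxa : P.xb + P.a ≤ P.w
  hxb1 : P.xb + 1 ≤ P.w
  heb1 : P.eb + 1 ≤ P.w
  hfa : P.f ≤ P.a
  hef : P.eb + P.f ≤ P.xb
  hKR1 : 2 ^ P.cb * P.KR ≤ 2 ^ (P.xb + (P.a - P.f))
  hKR2 : P.KR ^ P.q ≤ 3 * 2 ^ (P.a * P.q)
  hsa : P.sb + P.a2 ≤ P.w
  hsb3 : P.sb + 3 ≤ P.w
  hF : 0 < P.F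
  hF3 : 3 * P.F < 2 ^ P.sb
  hKs : ∀ k ∈ P.Ks, k.1 ≤ 2 ^ P.a ∧ k.2 < 2 ^ P.a2 ∧
    k.1 ^ P.q * 2 ^ P.a2 ≤ k.2 * 2 ^ (P.a * P.q)

lemma xor_two_pow_sub_one (b x : ℕ) (hx : x < 2 ^ b) : x ^^^ (2 ^ b - 1) = 2 ^ b - 1 - x := by
  have e : 2 ^ b - 1 - x = 2 ^ b - (x + 1) := by omega
  rw [e]
  apply Nat.eq_of_testBit_eq
  intro i
  rw [Nat.testBit_xor, Nat.testBit_two_pow_sub_one, Nat.testBit_two_pow_sub_succ hx]
  by_cases hi : i < b
  · simp [hi]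
  · have : x.testBit i = false := Nat.testBit_eq_false_of_lt
      (lt_of_lt_of_le hx (Nat.pow_le_pow_right (by norm_num) (by omega)))
    simp [this, hi]

lemma sel_eq (x y m : ℕ) : sel x y m = x ^^^ ((x ^^^ y) &&& m) := rfl

lemma sel_value (b x y g : ℕ) (hx : x < 2 ^ b) (hy : y < 2 ^ b) (hg : g = 0 ∨ g = 1) :
    x ^^^ ((x ^^^ y) &&& (g * (2 ^ b - 1))) = if g = 1 then y else x := by
  rcases hg with rfl | rfl
  · simp
  · rw [one_mul, Nat.and_two_pow_sub_one_eq_mod, Nat.mod_eq_of_lt (Nat.xor_lt_two_pow hx hy)]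
    rw [← Nat.xor_assoc, Nat.xor_self, Nat.zero_xor]
    simp

lemma ones_eq_full (w n : ℕ) : ones w n = full w n 1 := by
  rw [full_eq]; norm_num

lemma lanes_sel {w n b x y m : ℕ} {f g h : ℕ → ℕ} (hx : Lanes w n x f) (hy : Lanes w n y g)
    (hm : Lanes w n m (fun t => h t * (2 ^ b - 1)))
    (hfb : ∀ t < n, f t < 2 ^ b) (hgb : ∀ t < n, g t < 2 ^ b) (hh : ∀ t < n, h t = 0 ∨ h t = 1) :
    Lanes w n (sel x y m) (fun t => if h t = 1 then g t else f t) := by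
  rw [sel_eq]
  exact (hx.xor ((hx.xor hy).land hm)).congr fun t ht =>
    sel_value b (f t) (g t) (h t) (hfb t ht) (hgb t ht) (hh t ht)

/-- comparison of lanes -/
lemma cmp_value (b y z : ℕ) (hy : y < 2 ^ b) (hz : z < 2 ^ b) :
    ((y + (2 ^ b - z)) >>> b) % 2 ^ 1 = if z ≤ y then 1 else 0 := by
  rw [Nat.shiftRight_eq_div_pow]
  split_ifs with h
  · have : (y + (2 ^ b - z)) / 2 ^ b = 1 := by
      apply Nat.div_eq_of_lt_le <;> omega
    rw [this]; norm_num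
  · rw [Nat.div_eq_of_lt (by omega)]; norm_num

variable {P : Par} {Ed : ℕ → ℕ}

lemma lanes_gv (hP : Good2 P) (hw : 0 < P.w) {n EB y : ℕ} {fy e' : ℕ → ℕ}
    (hEB : Lanes P.w n EB (fun t => 2 ^ P.xb - e' t)) (hy : Lanes P.w n y fy)
    (he : ∀ t < n, e' t < 2 ^ P.xb) (hfy : ∀ t < n, fy t < 2 ^ P.xb) :
    Lanes P.w n (gv P (ones P.w n) EB y) (fun t => if e' t ≤ fy t then 1 else 0) := by
  have h1 : 2 ^ (P.xb + 1) ≤ 2 ^ P.w := Nat.pow_le_pow_right (by norm_num) hP.hxb1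
  rw [pow_succ] at h1
  have hsum := hy.add hEB (fun t ht => by
    have := hfy t ht
    have := he t ht
    omega)
  have e : gv P (ones P.w n) EB y = ((y + EB) >>> P.xb) &&& full P.w n 1 := by
    rw [← ones_eq_full]; rfl
  rw [e]
  have hb := hP.hxb1
  refine (lanes_shr_mask hsum le_rfl hw (by omega)).congr ?_
  intro t ht
  exact cmp_value P.xb (fy t) (e' t) (hfy t ht) (he t ht)

/-- the invariant of the power test -/
def Inv (P : Par) (x S c : ℕ) : Prop :=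
  x < 2 ^ P.xb ∧ 1 ≤ S ∧ S < 2 ^ P.sb ∧ P.F * x ^ P.q ≤ S * c ^ P.q

lemma Inv.stepI {x S c : ℕ} (h : Inv P x S c) {k : ℕ × ℕ}
    (hk : k.1 ≤ 2 ^ P.a ∧ k.2 < 2 ^ P.a2 ∧ k.1 ^ P.q * 2 ^ P.a2 ≤ k.2 * 2 ^ (P.a * P.q)) :
    Inv P (x * k.1 / 2 ^ P.a) (S * k.2 / 2 ^ P.a2 + 1) c := by
  obtain ⟨h1, h2, h3, h4⟩ := h
  obtain ⟨k1, k2, k3⟩ := hk
  have hS : S * k.2 / 2 ^ P.a2 < S := by
    rw [Nat.div_lt_iff_lt_mul (by positivity)]
    exact Nat.mul_lt_mul_of_pos_left k2 h2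
  refine ⟨?_, Nat.le_add_left 1 _, by omega, ?_⟩
  · rw [Nat.div_lt_iff_lt_mul (by positivity)]
    calc x * k.1 ≤ x * 2 ^ P.a := Nat.mul_le_mul_left _ k1
      _ < 2 ^ P.xb * 2 ^ P.a := Nat.mul_lt_mul_of_pos_right h1 (by positivity)
  · -- main inequality
    set y := x * k.1 / 2 ^ P.a with hy
    set S' := S * k.2 / 2 ^ P.a2 + 1 with hS'
    have hy1 : y * 2 ^ P.a ≤ x * k.1 := Nat.div_mul_le_self _ _
    have hS1 : S * k.2 ≤ S' * 2 ^ P.a2 := by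
      have := Nat.lt_succ_iff.1 (Nat.lt_succ_of_lt (Nat.lt_mul_div_succ (S * k.2)
        (show 0 < 2 ^ P.a2 by positivity)))
      rw [mul_comm (2 ^ P.a2)] at this
      exact this
    have hpos : 0 < 2 ^ (P.a * P.q) * 2 ^ P.a2 := by positivity
    refine Nat.le_of_mul_le_mul_right ?_ hpos
    calc P.F * y ^ P.q * (2 ^ (P.a * P.q) * 2 ^ P.a2)
        = P.F * (y * 2 ^ P.a) ^ P.q * 2 ^ P.a2 := by rw [mul_pow, pow_mul]; ring
      _ ≤ P.F * (x * k.1) ^ P.q * 2 ^ P.a2 :=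
          Nat.mul_le_mul_right _ (Nat.mul_le_mul_left _ (Nat.pow_le_pow_left hy1 _))
      _ = (P.F * x ^ P.q) * (k.1 ^ P.q * 2 ^ P.a2) := by rw [mul_pow]; ring
      _ ≤ (S * c ^ P.q) * (k.2 * 2 ^ (P.a * P.q)) := Nat.mul_le_mul h4 k3
      _ = (S * k.2) * (c ^ P.q * 2 ^ (P.a * P.q)) := by ring
      _ ≤ (S' * 2 ^ P.a2) * (c ^ P.q * 2 ^ (P.a * P.q)) := Nat.mul_le_mul_right _ hS1
      _ = S' * c ^ P.q * (2 ^ (P.a * P.q) * 2 ^ P.a2) := by ring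

lemma ptLoop_cons (ON FX FS EB : ℕ) (fin : ℕ → ℕ → Bool) (k : ℕ × ℕ) (l : List (ℕ × ℕ))
    (x S : ℕ) : ptLoop P ON FX FS EB fin (k :: l) x S =
    ptLoop P ON FX FS EB fin l
      (sel x (yv P FX x k.1) (gv P ON EB (yv P FX x k.1) * (2 ^ P.xb - 1)))
      (sel S (((S * k.2) >>> P.a2 &&& FS) + ON)
        (gv P ON EB (yv P FX x k.1) * (2 ^ P.sb - 1))) := rfl

lemma ptLoop_sound (hP : Good2 P) (hw : 0 < P.w) {n EB : ℕ} {e' c : ℕ → ℕ}
    (hEB : Lanes P.w n EB (fun t => 2 ^ P.xb - e' t)) (he : ∀ t < n, e' t < 2 ^ P.xb)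
    (fin : ℕ → ℕ → Bool) : ∀ (l : List (ℕ × ℕ))
    (_ : ∀ k ∈ l, k.1 ≤ 2 ^ P.a ∧ k.2 < 2 ^ P.a2 ∧
      k.1 ^ P.q * 2 ^ P.a2 ≤ k.2 * 2 ^ (P.a * P.q))
    (x S : ℕ) (fx fS : ℕ → ℕ) (_ : Lanes P.w n x fx) (_ : Lanes P.w n S fS)
    (_ : ∀ t < n, Inv P (fx t) (fS t) (c t)),
    ptLoop P (ones P.w n) (full P.w n P.xb) (full P.w n P.sb) EB fin l x S = true →
    ∃ (x' S' : ℕ) (fx' fS' : ℕ → ℕ), Lanes P.w n x' fx' ∧ Lanes P.w n S' fS' ∧
      (∀ t < n, Inv P (fx' t) (fS' t) (c t)) ∧ fin x' S' = true := by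
  intro l
  induction l with
  | nil =>
    intro _ x S fx fS hx hS hI h
    exact ⟨x, S, fx, fS, hx, hS, hI, h⟩
  | cons k l ih =>
    intro hl x S fx fS hx hS hI h
    rw [ptLoop_cons] at h
    have hk := hl k (by simp)
    have hxa := hP.hxa
    have hsa := hP.hsa
    have hsb3 := hP.hsb3
    have hxb1 := hP.hxb1
    have p1 : 2 ^ (P.xb + P.a) ≤ 2 ^ P.w := Nat.pow_le_pow_right (by norm_num) hP.hxa
    have p2 : 2 ^ (P.sb + P.a2) ≤ 2 ^ P.w := Nat.pow_le_pow_right (by norm_num) hP.hsa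
    have p3 : 2 ^ P.xb ≤ 2 ^ P.w := Nat.pow_le_pow_right (by norm_num) (by omega)
    have p4 : 2 ^ P.sb ≤ 2 ^ P.w := Nat.pow_le_pow_right (by norm_num) (by omega)
    -- y
    have hy0 := hx.mul k.1 (fun t ht => by
      calc fx t * k.1 ≤ fx t * 2 ^ P.a := Nat.mul_le_mul_left _ hk.1
        _ < 2 ^ P.xb * 2 ^ P.a := Nat.mul_lt_mul_of_pos_right (hI t ht).1 (by positivity)
        _ = 2 ^ (P.xb + P.a) := (pow_add _ _ _).symm
        _ ≤ 2 ^ P.w := p1)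
    have hy : Lanes P.w n (yv P (full P.w n P.xb) x k.1) (fun t => fx t * k.1 / 2 ^ P.a) := by
      have e : yv P (full P.w n P.xb) x k.1 = ((x * k.1) >>> P.a) &&& full P.w n P.xb := rfl
      rw [e]
      refine (lanes_shr_mask hy0 le_rfl hw hP.hxa).congr fun t ht => ?_
      rw [Nat.shiftRight_eq_div_pow, Nat.mod_eq_of_lt]
      exact ((hI t ht).stepI hk).1
    have hfy : ∀ t < n, fx t * k.1 / 2 ^ P.a < 2 ^ P.xb := fun t ht => ((hI t ht).stepI hk).1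
    have hg := lanes_gv hP hw hEB hy he hfy
    have p5 : 0 < 2 ^ P.xb := by positivity
    have p6 : 0 < 2 ^ P.sb := by positivity
    have hgx := hg.mul (2 ^ P.xb - 1) (fun t _ => by split_ifs <;> omega)
    have hgS := hg.mul (2 ^ P.sb - 1) (fun t _ => by split_ifs <;> omega)
    have hg01 : ∀ t < n, (if e' t ≤ fx t * k.1 / 2 ^ P.a then 1 else 0) = 0 ∨
        (if e' t ≤ fx t * k.1 / 2 ^ P.a then 1 else 0) = 1 := by
      intro t _; split_ifs <;> simp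
    -- S
    have hS0 := hS.mul k.2 (fun t ht => by
      calc fS t * k.2 ≤ fS t * 2 ^ P.a2 := Nat.mul_le_mul_left _ hk.2.1.le
        _ < 2 ^ P.sb * 2 ^ P.a2 := Nat.mul_lt_mul_of_pos_right (hI t ht).2.2.1 (by positivity)
        _ = 2 ^ (P.sb + P.a2) := (pow_add _ _ _).symm
        _ ≤ 2 ^ P.w := p2)
    have hS1 : Lanes P.w n ((S * k.2) >>> P.a2 &&& full P.w n P.sb)
        (fun t => fS t * k.2 / 2 ^ P.a2) := by
      refine (lanes_shr_mask hS0 le_rfl hw hP.hsa).congr fun t ht => ?_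
      rw [Nat.shiftRight_eq_div_pow, Nat.mod_eq_of_lt]
      have := ((hI t ht).stepI hk).2.2.1
      omega
    have hS2 : Lanes P.w n (((S * k.2) >>> P.a2 &&& full P.w n P.sb) + ones P.w n)
        (fun t => fS t * k.2 / 2 ^ P.a2 + 1) := hS1.add (lanes_ones P.w n hw) (fun t ht => by
      have := ((hI t ht).stepI hk).2.2.1
      omega)
    have hx' := lanes_sel (b := P.xb) hx hy hgx (fun t ht => (hI t ht).1) hfy hg01
    have hS' := lanes_sel (b := P.sb) hS hS2 hgS (fun t ht => (hI t ht).2.2.1)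
      (fun t ht => ((hI t ht).stepI hk).2.2.1) hg01
    refine ih (fun k' hk' => hl k' (by simp [hk'])) _ _ _ _ hx' hS' ?_ h
    intro t ht
    by_cases hc : e' t ≤ fx t * k.1 / 2 ^ P.a
    · simp only [hc, if_true]
      exact (hI t ht).stepI hk
    · simp only [hc, if_false, zero_ne_one]
      exact hI t ht

end Pool.Agent.Lib_helper1.V
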