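import Pool.Agent.Lib_helper1.VecComp

namespace Pool.Agent.Lib_helper1.V

lemma lane_mod (w X n t : ℕ) : lane w (X % 2 ^ (w * n)) t = if t < n then lane w X t else 0 := by
  apply Nat.eq_of_testBit_eq
  intro i
  rw [testBit_lane, Nat.testBit_mod_two_pow]
  by_cases hi : i < w
  · split_ifs with ht
    · have : w * t + i < w * n := by
        have : w * (t + 1) ≤ w * n := Nat.mul_le_mul_left w ht
        have e4 : w * (t + 1) = w * t + w := by ring
        omega
      rw [testBit_lane]
      simp [this, hi]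
    · have : ¬ (w * t + i < w * n) := by
        push Not at ht
        have := Nat.mul_le_mul_left w ht
        omega
      simp [this]
  · split_ifs with ht
    · rw [testBit_lane]; simp [hi]
    · simp [hi]

lemma dbl_eq (w n x : ℕ) : dbl w n x = x + x <<< (w * n) := rfl

lemma lane_dbl {w n X : ℕ} {f : ℕ → ℕ} (hw : 0 < w) (hX : Lanes w n X f) :
    Lanes w (2 * n) (dbl w n X) (fun t => f (t % n)) := by
  have hlt := lane_lt w X
  have hs : ∀ i, lane w (X <<< (w * n)) i = if i < n then 0 else lane w X (i - n) :=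
    fun i => lane_shl w X n i hw
  have h0 : ∀ i, lane w X i + lane w (X <<< (w * n)) i < 2 ^ w := by
    intro i
    rw [hs i]
    split_ifs with hi
    · simpa using hlt i
    · have : lane w X i = 0 := by rw [hX i, if_neg hi]
      rw [this, zero_add]
      exact hlt _
  intro t
  rw [dbl_eq, lane_add w t _ _ h0, hs t]
  by_cases h1 : t < n
  · have h2 : t < 2 * n := by omega
    simp [h1, h2, hX t, Nat.mod_eq_of_lt h1]
  · have h3 : lane w X t = 0 := by rw [hX t, if_neg h1]
    rw [if_neg h1, h3, zero_add, hX (t - n)]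
    by_cases h2 : t < 2 * n
    · have h4 : t - n < n := by omega
      have h5 : t % n = t - n := by
        rw [Nat.mod_eq_sub_mod (by omega), Nat.mod_eq_of_lt h4]
      simp [h2, h4, h5]
    · have h4 : ¬ t - n < n := by omega
      simp [h2, h4]

lemma S2_eq (w n L x : ℕ) : S2 w n L x = comp 2 w L (dbl w n x) := rfl

lemma lanes_S2 {w n L X : ℕ} {f : ℕ → ℕ} (hw : 0 < w) (hn : n ≤ 2 ^ L) (hX : Lanes w n X f) :
    Lanes w n (S2 w n L X) (fun t => f (2 * t % n)) := by
  intro t
  rw [S2_eq, lane_comp 2 w L _ t (by norm_num), lane_dbl hw hX (2 * t)]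
  by_cases h1 : t < n
  · have h2 : t < 2 ^ L := by omega
    have h3 : 2 * t < 2 * n := by omega
    simp [h1, h2]
  · have h3 : ¬ 2 * t < 2 * n := by omega
    simp [h1]

lemma rot_eq (w n q x : ℕ) : rot w n q x = (dbl w n x >>> (w * q)) % 2 ^ (w * n) := rfl

lemma lanes_rot {w n q X : ℕ} {f : ℕ → ℕ} (hw : 0 < w) (hq : q ≤ n) (hX : Lanes w n X f) :
    Lanes w n (rot w n q X) (fun t => f ((t + q) % n)) := by
  intro t
  rw [rot_eq, lane_mod, lane_shr, lane_dbl hw hX (t + q)]
  by_cases h1 : t < n
  · have h2 : t + q < 2 * n := by omega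
    simp [h1, h2]
  · simp [h1]

end Pool.Agent.Lib_helper1.V
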