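import Pool.Agent.Lib_helper1.VecRot

namespace Pool.Agent.Lib_helper1.V

/-- the function `e` read off the table -/
def eF (P : Par) (Ed : ℕ → ℕ) (b : ℕ) : ℕ :=
  lane P.w (Em P Ed (b % 3 ^ (P.j - 1))) (b / 3 ^ (P.j - 1) % 3 ^ P.s)

/-- the contribution of the second child -/
def eT (P : Par) (Ed : ℕ → ℕ) (m : ℕ) : ℕ :=
  if m % 9 = 8 then P.C * eF P Ed (2 * m / 3)
  else if m % 9 = 2 then P.B * eF P Ed (4 * m / 3) else 0

/-- the increasing approximations of `c` -/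
def cc (P : Par) (Ed : ℕ → ℕ) : ℕ → ℕ → ℕ
  | 0, _ => 0
  | l + 1, m => (P.A * cc P Ed l (4 * m % 3 ^ (P.j + P.s)) + eT P Ed m) / 2 ^ P.sh

/-- numerical conditions used for the recursion -/
structure Good1 (P : Par) : Prop where
  hs : 1 ≤ P.s
  hj : 2 ≤ P.j
  hL : 3 ^ P.s ≤ 2 ^ P.L
  heb : P.eb ≤ P.w
  hcw : P.cb + P.sh ≤ P.w
  hsh : 0 < P.sh
  hA : 0 < P.A
  hC : 2 ^ P.cb * P.A + 2 ^ P.eb * P.C ≤ 2 ^ (P.cb + P.sh)
  hB : 2 ^ P.cb * P.A + 2 ^ P.eb * P.B ≤ 2 ^ (P.cb + P.sh)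

variable {P : Par} {Ed : ℕ → ℕ}

lemma Good1.hw (h : Good1 P) : 0 < P.w := by have := h.hcw; have := h.hsh; omega

lemma lanes_Em (h : Good1 P) (b : ℕ) :
    Lanes P.w (3 ^ P.s) (Em P Ed b) (fun t => lane P.w (Em P Ed b) t) := by
  intro t
  split_ifs with ht
  · rfl
  · have e : Em P Ed b = Ed b &&& full P.w (3 ^ P.s) P.eb := rfl
    rw [e, lane_land, lanes_full P.w _ P.eb h.hw h.heb t, if_neg ht, Nat.and_zero]

lemma lane_Em_lt (h : Good1 P) (b t : ℕ) : lane P.w (Em P Ed b) t < 2 ^ P.eb := by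
  have e : Em P Ed b = Ed b &&& full P.w (3 ^ P.s) P.eb := rfl
  rw [e, lane_land, lanes_full P.w _ P.eb h.hw h.heb t]
  have h2 : 0 < 2 ^ P.eb := by positivity
  split_ifs with ht
  · have := Nat.and_le_right (n := lane P.w (Ed b) t) (m := 2 ^ P.eb - 1)
    show lane P.w (Ed b) t &&& (2 ^ P.eb - 1) < 2 ^ P.eb
    omega
  · simp

lemma eF_lt (h : Good1 P) (b : ℕ) : eF P Ed b < 2 ^ P.eb := lane_Em_lt h _ _

lemma eT_le (h : Good1 P) (m : ℕ) : 2 ^ P.cb * P.A + eT P Ed m ≤ 2 ^ (P.cb + P.sh) := by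
  unfold eT
  split_ifs with h1 h2
  · refine le_trans ?_ h.hC
    have := (eF_lt (Ed := Ed) h (2 * m / 3)).le
    rw [mul_comm P.C]
    exact Nat.add_le_add_left (Nat.mul_le_mul_right _ this) _
  · refine le_trans ?_ h.hB
    have := (eF_lt (Ed := Ed) h (4 * m / 3)).le
    rw [mul_comm P.B]
    exact Nat.add_le_add_left (Nat.mul_le_mul_right _ this) _
  · exact le_trans (by omega) h.hB

lemma num_lt (h : Good1 P) (m x : ℕ) (hx : x < 2 ^ P.cb) :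
    P.A * x + eT P Ed m < 2 ^ (P.cb + P.sh) := by
  have h1 := eT_le (Ed := Ed) h m
  have h2 : P.A * x < 2 ^ P.cb * P.A := by
    rw [mul_comm]; exact Nat.mul_lt_mul_of_pos_right hx h.hA
  omega

lemma cc_zero (m : ℕ) : cc P Ed 0 m = 0 := rfl

lemma cc_succ (l m : ℕ) : cc P Ed (l + 1) m =
    (P.A * cc P Ed l (4 * m % 3 ^ (P.j + P.s)) + eT P Ed m) / 2 ^ P.sh := rfl

lemma cc_lt (h : Good1 P) (l m : ℕ) : cc P Ed l m < 2 ^ P.cb := by
  induction l generalizing m with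
  | zero => rw [cc_zero]; positivity
  | succ l ih =>
    rw [cc_succ, Nat.div_lt_iff_lt_mul (by positivity), ← pow_add]
    exact num_lt h m _ (ih _)

lemma cc_mono_succ (l m : ℕ) : cc P Ed l m ≤ cc P Ed (l + 1) m := by
  induction l generalizing m with
  | zero => rw [cc_zero]; exact Nat.zero_le _
  | succ l ih =>
    rw [cc_succ l, cc_succ (l + 1)]
    exact Nat.div_le_div_right (Nat.add_le_add_right (Nat.mul_le_mul_left _ (ih _)) _)

lemma cc_mono {l l' : ℕ} (hl : l ≤ l') (m : ℕ) : cc P Ed l m ≤ cc P Ed l' m :=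
  monotone_nat_of_le_succ (fun l => cc_mono_succ l m) hl

/-- the type of a step as a vector, before the last permutation -/
def inner (P : Par) (Ed : ℕ → ℕ) (β c' : ℕ) : ℕ :=
  if β % 9 = 8 then
    S2 P.w (3 ^ P.s) P.L (rot P.w (3 ^ P.s) (4 * β / 3 ^ P.j) c') * P.A +
      rot P.w (3 ^ P.s) (2 * β / 3 / 3 ^ (P.j - 1)) (Em P Ed (2 * β / 3 % 3 ^ (P.j - 1))) * P.C
  else if β % 9 = 2 then
    S2 P.w (3 ^ P.s) P.L (rot P.w (3 ^ P.s) (4 * β / 3 ^ P.j) c' * P.A +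
      rot P.w (3 ^ P.s) (4 * β / 3 / 3 ^ (P.j - 1)) (Em P Ed (4 * β / 3 % 3 ^ (P.j - 1))) * P.B)
  else S2 P.w (3 ^ P.s) P.L (rot P.w (3 ^ P.s) (4 * β / 3 ^ P.j) c' * P.A)

lemma stepV_eq (β c' : ℕ) : stepV P Ed β c' =
    (S2 P.w (3 ^ P.s) P.L (inner P Ed β c') >>> P.sh) &&& full P.w (3 ^ P.s) P.cb := by
  unfold inner stepV
  split_ifs with h1 h2
  · have e1 : Nat.beq (Nat.mod β 9) 8 = true := by
      rw [Nat.beq_eq]; exact h1
    rw [e1]; rfl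
  · have e1 : Nat.beq (Nat.mod β 9) 8 = false := by
      rw [Bool.eq_false_iff]; intro hh; rw [Nat.beq_eq] at hh; exact h1 hh
    have e2 : Nat.beq (Nat.mod β 9) 2 = true := by
      rw [Nat.beq_eq]; exact h2
    rw [e1, e2]; rfl
  · have e1 : Nat.beq (Nat.mod β 9) 8 = false := by
      rw [Bool.eq_false_iff]; intro hh; rw [Nat.beq_eq] at hh; exact h1 hh
    have e2 : Nat.beq (Nat.mod β 9) 2 = false := by
      rw [Bool.eq_false_iff]; intro hh; rw [Nat.beq_eq] at hh; exact h2 hh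
    rw [e1, e2]; rfl

lemma mod_aux1 (t q n : ℕ) : (2 * t % n + q) % n = (2 * t + q) % n := Nat.mod_add_mod _ _ _

lemma mod_aux2 (t q n : ℕ) : (2 * (2 * t % n) % n + q) % n = (4 * t + q) % n := by
  rw [Nat.mod_add_mod]
  have h : 2 * (2 * t % n) ≡ 2 * (2 * t) [MOD n] := (Nat.mod_modEq _ _).mul_left 2
  have h2 := h.add_right q
  have e : 2 * (2 * t) + q = 4 * t + q := by ring
  rw [e] at h2
  exact h2

lemma mul_four_mod (β t : ℕ) :
    4 * (β + 3 ^ P.j * t) % 3 ^ (P.j + P.s) =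
      4 * β % 3 ^ P.j + 3 ^ P.j * ((4 * t + 4 * β / 3 ^ P.j) % 3 ^ P.s) := by
  have hp : 0 < 3 ^ P.j := by positivity
  rw [pow_add, Nat.mod_mul]
  have e : 4 * (β + 3 ^ P.j * t) = 4 * β + 3 ^ P.j * (4 * t) := by ring
  rw [e, Nat.add_mul_mod_self_left, Nat.add_mul_div_left _ _ hp]
  congr 3
  ring

lemma two_mul_div (hj : 2 ≤ P.j) (β t : ℕ) :
    2 * (β + 3 ^ P.j * t) / 3 = 2 * β / 3 + 3 ^ (P.j - 1) * (2 * t) := by
  obtain ⟨i, hi⟩ : ∃ i, P.j = i + 1 := ⟨P.j - 1, by omega⟩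
  rw [hi, Nat.add_sub_cancel]
  have e : 2 * (β + 3 ^ (i + 1) * t) = 2 * β + 3 * (3 ^ i * (2 * t)) := by ring
  rw [e, Nat.add_mul_div_left _ _ (by norm_num)]

lemma four_mul_div (hj : 2 ≤ P.j) (β t : ℕ) :
    4 * (β + 3 ^ P.j * t) / 3 = 4 * β / 3 + 3 ^ (P.j - 1) * (4 * t) := by
  obtain ⟨i, hi⟩ : ∃ i, P.j = i + 1 := ⟨P.j - 1, by omega⟩
  rw [hi, Nat.add_sub_cancel]
  have e : 4 * (β + 3 ^ (i + 1) * t) = 4 * β + 3 * (3 ^ i * (4 * t)) := by ring
  rw [e, Nat.add_mul_div_left _ _ (by norm_num)]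

lemma eF_add (b x : ℕ) : eF P Ed (b + 3 ^ (P.j - 1) * x) =
    lane P.w (Em P Ed (b % 3 ^ (P.j - 1))) ((x + b / 3 ^ (P.j - 1)) % 3 ^ P.s) := by
  have hp : 0 < 3 ^ (P.j - 1) := by positivity
  unfold eF
  rw [Nat.add_mul_mod_self_left, Nat.add_mul_div_left _ _ hp, add_comm (b / 3 ^ (P.j - 1))]

lemma mod9 (hj : 2 ≤ P.j) (β t : ℕ) : (β + 3 ^ P.j * t) % 9 = β % 9 := by
  obtain ⟨i, hi⟩ : ∃ i, P.j = i + 2 := ⟨P.j - 2, by omega⟩
  rw [hi]
  have e : β + 3 ^ (i + 2) * t = β + 9 * (3 ^ i * t) := by ring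
  rw [e, Nat.add_mul_mod_self_left]

/-- the vector step computes the recursion for `c` -/
lemma lanes_stepV (h : Good1 P) (β c' : ℕ) (hβ : β < 3 ^ P.j) (l : ℕ)
    (hc : Lanes P.w (3 ^ P.s) c' (fun t => cc P Ed l (4 * β % 3 ^ P.j + 3 ^ P.j * t))) :
    Lanes P.w (3 ^ P.s) (stepV P Ed β c') (fun t => cc P Ed (l + 1) (β + 3 ^ P.j * t)) := by
  have hw := h.hw
  have hj := h.hj
  have hL := h.hL
  have hpj : 0 < 3 ^ P.j := by positivity
  have hpj1 : 0 < 3 ^ (P.j - 1) := by positivity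
  have hs3 : 3 ≤ 3 ^ P.s := by
    calc 3 = 3 ^ 1 := by norm_num
      _ ≤ 3 ^ P.s := Nat.pow_le_pow_right (by norm_num) h.hs
  have hjj : 3 ^ P.j = 3 * 3 ^ (P.j - 1) := by
    rw [← pow_succ']; congr 1; omega
  have hq0 : 4 * β / 3 ^ P.j ≤ 3 ^ P.s := by
    refine le_trans ?_ hs3
    have : 4 * β / 3 ^ P.j < 4 := by rw [Nat.div_lt_iff_lt_mul hpj]; omega
    omega
  have hq1 : 2 * β / 3 / 3 ^ (P.j - 1) ≤ 3 ^ P.s := by
    refine le_trans ?_ hs3
    have : 2 * β / 3 / 3 ^ (P.j - 1) < 2 := by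
      rw [Nat.div_lt_iff_lt_mul hpj1, Nat.div_lt_iff_lt_mul (by norm_num)]; omega
    omega
  have hq2 : 4 * β / 3 / 3 ^ (P.j - 1) ≤ 3 ^ P.s := by
    refine le_trans ?_ hs3
    have : 4 * β / 3 / 3 ^ (P.j - 1) < 4 := by
      rw [Nat.div_lt_iff_lt_mul hpj1, Nat.div_lt_iff_lt_mul (by norm_num)]; omega
    omega
  have hpow : 2 ^ (P.cb + P.sh) ≤ 2 ^ P.w := Nat.pow_le_pow_right (by norm_num) h.hcw
  -- bounds
  have bA : ∀ x, cc P Ed l x * P.A < 2 ^ P.w := by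
    intro x
    have := num_lt (Ed := Ed) h x _ (cc_lt (Ed := Ed) h l x)
    rw [mul_comm]; omega
  have bAC : ∀ x b, cc P Ed l x * P.A + eF P Ed b * P.C < 2 ^ P.w := by
    intro x b
    have h1 := (eF_lt (Ed := Ed) h b).le
    have h2 := Nat.mul_le_mul_right P.C h1
    have h3 : cc P Ed l x * P.A < 2 ^ P.cb * P.A :=
      Nat.mul_lt_mul_of_pos_right (cc_lt h l x) h.hA
    have := h.hC
    omega
  have bAB : ∀ x b, cc P Ed l x * P.A + eF P Ed b * P.B < 2 ^ P.w := by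
    intro x b
    have h1 := (eF_lt (Ed := Ed) h b).le
    have h2 := Nat.mul_le_mul_right P.B h1
    have h3 : cc P Ed l x * P.A < 2 ^ P.cb * P.A :=
      Nat.mul_lt_mul_of_pos_right (cc_lt h l x) h.hA
    have := h.hB
    omega
  have hR := lanes_rot hw hq0 hc
  -- the inner vector
  have hinner : Lanes P.w (3 ^ P.s) (S2 P.w (3 ^ P.s) P.L (inner P Ed β c'))
      (fun t => P.A * cc P Ed l (4 * (β + 3 ^ P.j * t) % 3 ^ (P.j + P.s)) +
        eT P Ed (β + 3 ^ P.j * t)) := by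
    unfold inner
    split_ifs with h1 h2
    · have hS := (lanes_S2 hw hL hR).mul P.A (fun t _ => bA _)
      have hE := (lanes_rot hw hq1 (lanes_Em (Ed := Ed) h (2 * β / 3 % 3 ^ (P.j - 1))))
      have hE2 : Lanes P.w (3 ^ P.s) (rot P.w (3 ^ P.s) (2 * β / 3 / 3 ^ (P.j - 1))
          (Em P Ed (2 * β / 3 % 3 ^ (P.j - 1)))) (fun t => eF P Ed (2 * β / 3 + 3 ^ (P.j - 1) * t)) :=
        hE.congr fun t _ => (eF_add _ _).symm
      have hE3 := hE2.mul P.C (fun t _ => by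
        have := bAC 0 (2 * β / 3 + 3 ^ (P.j - 1) * t)
        omega)
      have hsum := hS.add hE3 (fun t _ => bAC _ _)
      refine (lanes_S2 hw hL hsum).congr ?_
      intro t _
      have h9 : (β + 3 ^ P.j * t) % 9 = 8 := by rw [mod9 hj, h1]
      simp only [eT, h9, if_true]
      rw [two_mul_div hj, mul_four_mod, eF_add, eF_add, mul_comm (cc P Ed l _), mul_comm P.C,
        mod_aux2, mod_aux1]
    · have hC' := hR.mul P.A (fun t _ => bA _)
      have hE := (lanes_rot hw hq2 (lanes_Em (Ed := Ed) h (4 * β / 3 % 3 ^ (P.j - 1))))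
      have hE2 : Lanes P.w (3 ^ P.s) (rot P.w (3 ^ P.s) (4 * β / 3 / 3 ^ (P.j - 1))
          (Em P Ed (4 * β / 3 % 3 ^ (P.j - 1)))) (fun t => eF P Ed (4 * β / 3 + 3 ^ (P.j - 1) * t)) :=
        hE.congr fun t _ => (eF_add _ _).symm
      have hE3 := hE2.mul P.B (fun t _ => by
        have := bAB 0 (4 * β / 3 + 3 ^ (P.j - 1) * t)
        omega)
      have hsum := hC'.add hE3 (fun t _ => bAB _ _)
      refine (lanes_S2 hw hL (lanes_S2 hw hL hsum)).congr ?_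
      intro t _
      have h9 : (β + 3 ^ P.j * t) % 9 = 2 := by rw [mod9 hj, h2]
      simp only [eT, h9, if_true]
      rw [if_neg (by norm_num), four_mul_div hj, mul_four_mod, eF_add, eF_add,
        mul_comm (cc P Ed l _), mul_comm P.B, mod_aux2, mod_aux2]
    · have hC' := hR.mul P.A (fun t _ => bA _)
      refine (lanes_S2 hw hL (lanes_S2 hw hL hC')).congr ?_
      intro t _
      have h9 : (β + 3 ^ P.j * t) % 9 = β % 9 := mod9 hj _ _
      simp only [eT, h9, h1, h2, if_false, add_zero]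
      rw [mul_four_mod, mul_comm (cc P Ed l _), mod_aux2]
  rw [stepV_eq]
  refine (lanes_shr_mask hinner le_rfl hw h.hcw).congr ?_
  intro t _
  rw [cc_succ, Nat.shiftRight_eq_div_pow, Nat.mod_eq_of_lt]
  rw [Nat.div_lt_iff_lt_mul (by positivity), ← pow_add]
  exact num_lt h _ _ (cc_lt h l _)

lemma Cv_zero (β : ℕ) : Cv P Ed 0 β = 0 := rfl

lemma Cv_succ (l β : ℕ) : Cv P Ed (l + 1) β = stepV P Ed β (Cv P Ed l (4 * β % 3 ^ P.j)) := rfl

lemma lanes_Cv (h : Good1 P) (l β : ℕ) (hβ : β < 3 ^ P.j) :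
    Lanes P.w (3 ^ P.s) (Cv P Ed l β) (fun t => cc P Ed l (β + 3 ^ P.j * t)) := by
  induction l generalizing β with
  | zero =>
    intro t
    rw [Cv_zero, lane_zero_left]
    simp [cc_zero]
  | succ l ih =>
    rw [Cv_succ]
    exact lanes_stepV h β _ hβ l (ih _ (Nat.mod_lt _ (by positivity)))

end Pool.Agent.Lib_helper1.V
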