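import Pool.Agent.Lib_helper1.VecPow

namespace Pool.Agent.Lib_helper1.V

variable {P : Par} {Ed : ℕ → ℕ}

lemma lanes_or3 {w m z : ℕ} {f : ℕ → ℕ} (hw : 0 < w) (hz : Lanes w m z f) :
    Lanes w (3 * m) (orShl 3 (w * m) z) (fun t => f (t % m)) := by
  have e : orShl 3 (w * m) z = (z ||| z <<< (w * m)) ||| z <<< (w * (2 * m)) := by
    rw [orShl_succ 2 _ _ (by norm_num), orShl_succ 1 _ _ (by norm_num)]
    have h1 : orShl 1 (w * m) z = z := rfl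
    rw [h1, one_mul]
    congr 2
    ring
  intro t
  rw [e, lane_lor, lane_lor, lane_shl _ _ _ _ hw, lane_shl _ _ _ _ hw, hz t, hz (t - m),
    hz (t - 2 * m)]
  by_cases h1 : t < m
  · have h2 : t < 2 * m := by omega
    have h3 : t < 3 * m := by omega
    simp [h1, h2, h3, Nat.mod_eq_of_lt h1]
  · by_cases h2 : t < 2 * m
    · have h3 : t < 3 * m := by omega
      have h4 : t - m < m := by omega
      have h5 : t % m = t - m := by
        rw [Nat.mod_eq_sub_mod (by omega), Nat.mod_eq_of_lt h4]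
      simp [h1, h2, h3, h4, h5]
    · by_cases h3 : t < 3 * m
      · have h4 : ¬ t - m < m := by omega
        have h6 : t - 2 * m < m := by omega
        have h5 : t % m = t - 2 * m := by
          rw [Nat.mod_eq_sub_mod (by omega), Nat.mod_eq_sub_mod (by omega), Nat.mod_eq_of_lt (by omega)]
          omega
        simp [h1, h2, h3, h4, h5, h6]
      · have h4 : ¬ t - m < m := by omega
        have h6 : ¬ t - 2 * m < m := by omega
        simp [h1, h3, h4, h6]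

lemma lanes_sum3 {w m S b : ℕ} {f : ℕ → ℕ} (hb : b + 2 ≤ w) (hS : Lanes w (3 * m) S f)
    (hf : ∀ t < 3 * m, f t < 2 ^ b) :
    Lanes w m (sum3 w m S) (fun t => f t + (f (t + m) + f (t + 2 * m))) := by
  have hpow : 2 ^ (b + 2) ≤ 2 ^ w := Nat.pow_le_pow_right (by norm_num) hb
  rw [pow_add] at hpow
  have h1 : Lanes w m (S % 2 ^ (w * m)) f := by
    intro t
    rw [lane_mod, hS t]
    by_cases ht : t < m
    · have : t < 3 * m := by omega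
      simp [ht, this]
    · simp [ht]
  have h2 : Lanes w m ((S >>> (w * m)) % 2 ^ (w * m)) (fun t => f (t + m)) := by
    intro t
    rw [lane_mod, lane_shr, hS (t + m)]
    by_cases ht : t < m
    · have : t + m < 3 * m := by omega
      simp [ht, this]
    · simp [ht]
  have h3 : Lanes w m (S >>> (w * (2 * m))) (fun t => f (t + 2 * m)) := by
    intro t
    rw [lane_shr, hS (t + 2 * m)]
    by_cases ht : t < m
    · have : t + 2 * m < 3 * m := by omega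
      simp [ht, this]
    · have : ¬ t + 2 * m < 3 * m := by omega
      simp [ht, this]
  have e : sum3 w m S = S % 2 ^ (w * m) + ((S >>> (w * m)) % 2 ^ (w * m) + S >>> (w * (2 * m))) :=
    rfl
  rw [e]
  refine h1.add (h2.add h3 ?_) ?_
  · intro t ht
    have := hf (t + m) (by omega)
    have := hf (t + 2 * m) (by omega)
    omega
  · intro t ht
    have := hf t (by omega)
    have := hf (t + m) (by omega)
    have := hf (t + 2 * m) (by omega)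
    omega

/-- reading off a comparison -/
lemma of_eq_ones {w n X : ℕ} {p : ℕ → Prop} [DecidablePred p] (hw : 0 < w)
    (hX : Lanes w n X (fun t => if p t then 1 else 0)) (h : X = ones w n) : ∀ t < n, p t := by
  intro t ht
  have h1 := hX t
  rw [h, lanes_ones w n hw t] at h1
  simp only [ht, if_true] at h1
  by_contra hc
  rw [if_neg hc] at h1
  exact one_ne_zero h1

lemma lanes_ebar (hP : Good2 P) (hw : 0 < P.w) {s1 e3 : ℕ} (hs : P.s = s1 + 1) {e : ℕ → ℕ}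
    (he3 : Lanes P.w (3 ^ s1) e3 e) (he : ∀ t < 3 ^ s1, e t < 2 ^ P.eb) :
    Lanes P.w (3 ^ P.s) (ebar P e3) (fun t => 2 ^ P.xb - e (t % 3 ^ s1) * 2 ^ P.f) := by
  have h1 : ebar P e3 = ((orShl 3 (P.w * 3 ^ (P.s - 1)) e3 * 2 ^ P.f) ^^^
      full P.w (3 ^ P.s) P.xb) + ones P.w (3 ^ P.s) := rfl
  have h2 : P.s - 1 = s1 := by omega
  have h3 : 3 ^ P.s = 3 * 3 ^ s1 := by rw [hs, pow_succ']
  have hm : 0 < 3 ^ s1 := by positivity
  have hpw : 2 ^ (P.eb + P.f) ≤ 2 ^ P.xb := Nat.pow_le_pow_right (by norm_num) hP.hef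
  have hpw2 : 2 ^ (P.xb + 1) ≤ 2 ^ P.w := Nat.pow_le_pow_right (by norm_num) hP.hxb1
  rw [pow_succ] at hpw2
  rw [pow_add] at hpw
  have hxb1 := hP.hxb1
  have hlt : ∀ t, e (t % 3 ^ s1) * 2 ^ P.f < 2 ^ P.xb := by
    intro t
    calc e (t % 3 ^ s1) * 2 ^ P.f < 2 ^ P.eb * 2 ^ P.f :=
          Nat.mul_lt_mul_of_pos_right (he _ (Nat.mod_lt _ hm)) (by positivity)
      _ ≤ _ := hpw
  rw [h1, h2, h3]
  have hA := (lanes_or3 hw he3).mul (2 ^ P.f) (fun t _ => by have := hlt t; omega)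
  have hB := hA.xor (lanes_full P.w (3 * 3 ^ s1) P.xb hw (by omega))
  have hC : Lanes P.w (3 * 3 ^ s1) ((orShl 3 (P.w * 3 ^ s1) e3 * 2 ^ P.f) ^^^
      full P.w (3 * 3 ^ s1) P.xb) (fun t => 2 ^ P.xb - 1 - e (t % 3 ^ s1) * 2 ^ P.f) :=
    hB.congr fun t _ => xor_two_pow_sub_one _ _ (hlt t)
  refine (hC.add (lanes_ones P.w _ hw) (fun t _ => by have := hlt t; omega)).congr ?_
  intro t _
  have := hlt t
  omega

lemma ptFin_sound (hP : Good2 P) (hw : 0 < P.w) {s1 EB x S : ℕ} (hs : P.s = s1 + 1)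
    {e' fx fS : ℕ → ℕ}
    (hEB : Lanes P.w (3 ^ P.s) EB (fun t => 2 ^ P.xb - e' t))
    (he : ∀ t < 3 ^ P.s, e' t < 2 ^ P.xb)
    (hx : Lanes P.w (3 ^ P.s) x fx) (hfx : ∀ t < 3 ^ P.s, fx t < 2 ^ P.xb)
    (hS : Lanes P.w (3 ^ P.s) S fS) (hfS : ∀ t < 3 ^ P.s, fS t < 2 ^ P.sb)
    (h : ptFin P (ones P.w (3 ^ P.s)) EB x S = true) :
    (∀ t < 3 ^ P.s, e' t ≤ fx t) ∧
      (∀ t < 3 ^ s1, fS t + (fS (t + 3 ^ s1) + fS (t + 2 * 3 ^ s1)) ≤ 3 * P.F) := by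
  have h2 : P.s - 1 = s1 := by omega
  have h3 : 3 ^ P.s = 3 * 3 ^ s1 := by rw [hs, pow_succ']
  have e1 : ptFin P (ones P.w (3 ^ P.s)) EB x S =
      (Nat.beq (gv P (ones P.w (3 ^ P.s)) EB x) (ones P.w (3 ^ P.s)) &&
        Nat.beq (((full P.w (3 ^ (P.s - 1)) (P.sb + 2) ^^^ sum3 P.w (3 ^ (P.s - 1)) S) +
          ones P.w (3 ^ (P.s - 1)) * (3 * P.F + 1)) >>> (P.sb + 2) &&& ones P.w (3 ^ (P.s - 1)))
          (ones P.w (3 ^ (P.s - 1)))) := rfl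
  rw [e1, Bool.and_eq_true, Nat.beq_eq, Nat.beq_eq, h2] at h
  obtain ⟨ha, hb⟩ := h
  have hg := lanes_gv hP hw hEB hx he hfx
  refine ⟨of_eq_ones hw hg ha, ?_⟩
  have hsb3 := hP.hsb3
  have hF3 := hP.hF3
  have hpow : 2 ^ (P.sb + 3) ≤ 2 ^ P.w := Nat.pow_le_pow_right (by norm_num) hsb3
  have ep2 : 2 ^ (P.sb + 2) = 4 * 2 ^ P.sb := by rw [pow_add]; ring
  have ep3 : 2 ^ (P.sb + 3) = 8 * 2 ^ P.sb := by rw [pow_add]; ring
  rw [h3] at hS hfS
  have hsum := lanes_sum3 (b := P.sb) (by omega) hS hfS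
  have hlt : ∀ t < 3 ^ s1, fS t + (fS (t + 3 ^ s1) + fS (t + 2 * 3 ^ s1)) < 2 ^ (P.sb + 2) := by
    intro t ht
    have := hfS t (by omega)
    have := hfS (t + 3 ^ s1) (by omega)
    have := hfS (t + 2 * 3 ^ s1) (by omega)
    omega
  have hA := (lanes_full P.w (3 ^ s1) (P.sb + 2) hw (by omega)).xor hsum
  have hB : Lanes P.w (3 ^ s1) (full P.w (3 ^ s1) (P.sb + 2) ^^^ sum3 P.w (3 ^ s1) S)
      (fun t => 2 ^ (P.sb + 2) - 1 - (fS t + (fS (t + 3 ^ s1) + fS (t + 2 * 3 ^ s1)))) :=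
    hA.congr fun t ht => by
      rw [Nat.xor_comm]
      exact xor_two_pow_sub_one _ _ (hlt t ht)
  have hO := (lanes_ones P.w (3 ^ s1) hw).mul (3 * P.F + 1) (fun t _ => by omega)
  have hC := hB.add hO (fun t ht => by have := hlt t ht; omega)
  have hD := lanes_shr_mask (b := 1) hC le_rfl hw (show 1 + (P.sb + 2) ≤ P.w by omega)
  rw [← ones_eq_full] at hD
  have hE : Lanes P.w (3 ^ s1) (((full P.w (3 ^ s1) (P.sb + 2) ^^^ sum3 P.w (3 ^ s1) S) +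
          ones P.w (3 ^ s1) * (3 * P.F + 1)) >>> (P.sb + 2) &&& ones P.w (3 ^ s1))
      (fun t => if fS t + (fS (t + 3 ^ s1) + fS (t + 2 * 3 ^ s1)) ≤ 3 * P.F then 1 else 0) := by
    refine hD.congr fun t ht => ?_
    have h5 := hlt t ht
    rw [Nat.shiftRight_eq_div_pow]
    split_ifs with h6
    · have : (2 ^ (P.sb + 2) - 1 - (fS t + (fS (t + 3 ^ s1) + fS (t + 2 * 3 ^ s1))) +
          1 * (3 * P.F + 1)) / 2 ^ (P.sb + 2) = 1 := by
        apply Nat.div_eq_of_lt_le <;> omega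
      rw [this]; norm_num
    · rw [Nat.div_eq_of_lt (by omega)]; norm_num
  exact of_eq_ones hw hE hb

lemma ptE_sound (h1 : Good1 P) (h2 : Good2 P) {s1 e3 c : ℕ} (hs : P.s = s1 + 1) {e cf : ℕ → ℕ}
    (he3 : Lanes P.w (3 ^ s1) e3 e) (he : ∀ t < 3 ^ s1, e t < 2 ^ P.eb)
    (hc : Lanes P.w (3 ^ P.s) c cf) (hcf : ∀ t < 3 ^ P.s, cf t < 2 ^ P.cb)
    (h : ptE P e3 c = true) :
    ∀ t < 3 ^ s1, 1 ≤ e t ∧ ∃ S0 S1 S2, S0 + (S1 + S2) ≤ 3 * P.F ∧
      P.F * e t ^ P.q ≤ S0 * cf t ^ P.q ∧ P.F * e t ^ P.q ≤ S1 * cf (t + 3 ^ s1) ^ P.q ∧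
      P.F * e t ^ P.q ≤ S2 * cf (t + 2 * 3 ^ s1) ^ P.q := by
  have hw := h1.hw
  have hs1 : P.s - 1 = s1 := by omega
  have h3 : 3 ^ P.s = 3 * 3 ^ s1 := by rw [hs, pow_succ']
  have hm : 0 < 3 ^ s1 := by positivity
  have heb1 := h2.heb1
  have e1 : ptE P e3 c =
      (Nat.beq ((e3 + full P.w (3 ^ (P.s - 1)) P.eb) >>> P.eb &&& ones P.w (3 ^ (P.s - 1)))
        (ones P.w (3 ^ (P.s - 1))) &&
      ptLoop P (ones P.w (3 ^ P.s)) (full P.w (3 ^ P.s) P.xb) (full P.w (3 ^ P.s) P.sb)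
        (ebar P e3) (ptFin P (ones P.w (3 ^ P.s)) (ebar P e3)) P.Ks
        ((c * P.KR) >>> (P.a - P.f) &&& full P.w (3 ^ P.s) P.xb)
        (ones P.w (3 ^ P.s) * (3 * P.F))) := rfl
  rw [e1, Bool.and_eq_true, Nat.beq_eq, hs1] at h
  obtain ⟨ha, hb⟩ := h
  -- positivity of e
  have hpe : 2 ^ (P.eb + 1) ≤ 2 ^ P.w := Nat.pow_le_pow_right (by norm_num) heb1
  rw [pow_succ] at hpe
  have hpe0 : 0 < 2 ^ P.eb := by positivity
  have hA := he3.add (lanes_full P.w (3 ^ s1) P.eb hw (by omega)) (fun t ht => by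
    have := he t ht
    omega)
  have hB := lanes_shr_mask (b := 1) hA le_rfl hw (show 1 + P.eb ≤ P.w by omega)
  rw [← ones_eq_full] at hB
  have hC : Lanes P.w (3 ^ s1)
      ((e3 + full P.w (3 ^ s1) P.eb) >>> P.eb &&& ones P.w (3 ^ s1))
      (fun t => if 1 ≤ e t then 1 else 0) := by
    refine hB.congr fun t ht => ?_
    have := he t ht
    rw [Nat.shiftRight_eq_div_pow]
    split_ifs with h6
    · have : (e t + (2 ^ P.eb - 1)) / 2 ^ P.eb = 1 := by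
        apply Nat.div_eq_of_lt_le <;> omega
      rw [this]; norm_num
    · rw [Nat.div_eq_of_lt (by omega)]; norm_num
  have hpos := of_eq_ones hw hC ha
  -- the loop
  have hEB := lanes_ebar h2 hw hs he3 he
  have hpw : 2 ^ (P.eb + P.f) ≤ 2 ^ P.xb := Nat.pow_le_pow_right (by norm_num) h2.hef
  rw [pow_add] at hpw
  have hlt : ∀ t < 3 ^ P.s, e (t % 3 ^ s1) * 2 ^ P.f < 2 ^ P.xb := by
    intro t _
    calc e (t % 3 ^ s1) * 2 ^ P.f < 2 ^ P.eb * 2 ^ P.f :=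
          Nat.mul_lt_mul_of_pos_right (he _ (Nat.mod_lt _ hm)) (by positivity)
      _ ≤ _ := hpw
  have hxa := h2.hxa
  have hfa := h2.hfa
  have hsb3 := h2.hsb3
  have hF3 := h2.hF3
  have hF := h2.hF
  have hpx : 2 ^ (P.xb + (P.a - P.f)) ≤ 2 ^ P.w := Nat.pow_le_pow_right (by norm_num) (by omega)
  have hps : 2 ^ P.sb ≤ 2 ^ P.w := Nat.pow_le_pow_right (by norm_num) (by omega)
  have hcK : ∀ t < 3 ^ P.s, cf t * P.KR < 2 ^ (P.xb + (P.a - P.f)) := by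
    intro t ht
    rcases Nat.eq_zero_or_pos P.KR with h0 | h0
    · rw [h0, mul_zero]; positivity
    · calc cf t * P.KR < 2 ^ P.cb * P.KR := Nat.mul_lt_mul_of_pos_right (hcf t ht) h0
        _ ≤ _ := h2.hKR1
  have hx0 : Lanes P.w (3 ^ P.s) ((c * P.KR) >>> (P.a - P.f) &&& full P.w (3 ^ P.s) P.xb)
      (fun t => cf t * P.KR / 2 ^ (P.a - P.f)) := by
    have hK := hc.mul P.KR (fun t ht => by have := hcK t ht; omega)
    refine (lanes_shr_mask hK le_rfl hw (by omega)).congr fun t ht => ?_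
    rw [Nat.shiftRight_eq_div_pow, Nat.mod_eq_of_lt]
    rw [Nat.div_lt_iff_lt_mul (by positivity), ← pow_add]
    exact hcK t ht
  have hS0 : Lanes P.w (3 ^ P.s) (ones P.w (3 ^ P.s) * (3 * P.F)) (fun _ => 3 * P.F) := by
    have := (lanes_ones P.w (3 ^ P.s) hw).mul (3 * P.F) (fun t _ => by omega)
    simpa using this
  have hInv : ∀ t < 3 ^ P.s, Inv P (cf t * P.KR / 2 ^ (P.a - P.f)) (3 * P.F) (cf t * 2 ^ P.f) := by
    intro t ht
    refine ⟨?_, by omega, hF3, ?_⟩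
    · rw [Nat.div_lt_iff_lt_mul (by positivity), ← pow_add]
      exact hcK t ht
    · set x := cf t * P.KR / 2 ^ (P.a - P.f) with hx
      have hx1 : x * 2 ^ (P.a - P.f) ≤ cf t * P.KR := Nat.div_mul_le_self _ _
      have hx2 : x * 2 ^ P.a ≤ cf t * 2 ^ P.f * P.KR := by
        calc x * 2 ^ P.a = x * 2 ^ (P.a - P.f) * 2 ^ P.f := by
              rw [mul_assoc, ← pow_add]; congr 2; omega
          _ ≤ cf t * P.KR * 2 ^ P.f := Nat.mul_le_mul_right _ hx1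
          _ = _ := by ring
      have hpos2 : 0 < 2 ^ (P.a * P.q) := by positivity
      refine Nat.le_of_mul_le_mul_right ?_ hpos2
      calc P.F * x ^ P.q * 2 ^ (P.a * P.q) = P.F * (x * 2 ^ P.a) ^ P.q := by
            rw [mul_pow, pow_mul]; ring
        _ ≤ P.F * (cf t * 2 ^ P.f * P.KR) ^ P.q :=
            Nat.mul_le_mul_left _ (Nat.pow_le_pow_left hx2 _)
        _ = P.F * (cf t * 2 ^ P.f) ^ P.q * P.KR ^ P.q := by rw [mul_pow]; ring
        _ ≤ P.F * (cf t * 2 ^ P.f) ^ P.q * (3 * 2 ^ (P.a * P.q)) :=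
            Nat.mul_le_mul_left _ h2.hKR2
        _ = _ := by ring
  obtain ⟨x', S', fx', fS', hx', hS', hI', hfin⟩ :=
    ptLoop_sound h2 hw hEB hlt _ P.Ks h2.hKs _ _ _ _ hx0 hS0 hInv hb
  obtain ⟨hfa1, hfb1⟩ := ptFin_sound h2 hw hs hEB hlt hx' (fun t ht => (hI' t ht).1) hS'
    (fun t ht => (hI' t ht).2.2.1) hfin
  have hkey : ∀ t < 3 ^ P.s, P.F * e (t % 3 ^ s1) ^ P.q ≤ fS' t * cf t ^ P.q := by
    intro t ht
    have i1 := (hI' t ht).2.2.2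
    have i2 := hfa1 t ht
    have hpos3 : 0 < (2 ^ P.f) ^ P.q := by positivity
    refine Nat.le_of_mul_le_mul_right ?_ hpos3
    calc P.F * e (t % 3 ^ s1) ^ P.q * (2 ^ P.f) ^ P.q
        = P.F * (e (t % 3 ^ s1) * 2 ^ P.f) ^ P.q := by rw [mul_pow]; ring
      _ ≤ P.F * fx' t ^ P.q := Nat.mul_le_mul_left _ (Nat.pow_le_pow_left i2 _)
      _ ≤ fS' t * (cf t * 2 ^ P.f) ^ P.q := i1
      _ = _ := by rw [mul_pow]; ring
  intro t ht
  refine ⟨hpos t ht, fS' t, fS' (t + 3 ^ s1), fS' (t + 2 * 3 ^ s1), hfb1 t ht, ?_, ?_, ?_⟩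
  · have := hkey t (by omega)
    rwa [Nat.mod_eq_of_lt ht] at this
  · have := hkey (t + 3 ^ s1) (by omega)
    rwa [Nat.add_mod_right, Nat.mod_eq_of_lt ht] at this
  · have := hkey (t + 2 * 3 ^ s1) (by omega)
    rwa [Nat.add_mul_mod_self_right, Nat.mod_eq_of_lt ht] at this

lemma pt_sound (h1 : Good1 P) (h2 : Good2 P) {β c : ℕ} {cf : ℕ → ℕ} (hβ : β < 3 ^ P.j)
    (hc : Lanes P.w (3 ^ P.s) c cf) (hcf : ∀ t < 3 ^ P.s, cf t < 2 ^ P.cb)
    (h : pt P Ed β c = true) :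
    ∀ t < 3 ^ (P.s - 1), 1 ≤ eF P Ed (β + 3 ^ P.j * t) ∧ ∃ S0 S1 S2, S0 + (S1 + S2) ≤ 3 * P.F ∧
      P.F * eF P Ed (β + 3 ^ P.j * t) ^ P.q ≤ S0 * cf t ^ P.q ∧
      P.F * eF P Ed (β + 3 ^ P.j * t) ^ P.q ≤ S1 * cf (t + 3 ^ (P.s - 1)) ^ P.q ∧
      P.F * eF P Ed (β + 3 ^ P.j * t) ^ P.q ≤ S2 * cf (t + 2 * 3 ^ (P.s - 1)) ^ P.q := by
  have hs0 := h1.hs
  obtain ⟨s1, hs⟩ : ∃ s1, P.s = s1 + 1 := ⟨P.s - 1, by omega⟩
  have hs1 : P.s - 1 = s1 := by omega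
  have h3 : 3 ^ P.s = 3 * 3 ^ s1 := by rw [hs, pow_succ']
  have hj := h1.hj
  have hjj : 3 ^ P.j = 3 ^ (P.j - 1) * 3 := by
    rw [← pow_succ]; congr 1; omega
  have hpj1 : 0 < 3 ^ (P.j - 1) := by positivity
  have e1 : pt P Ed β c = ptE P (comp 3 P.w (P.s - 1)
      (Em P Ed (β % 3 ^ (P.j - 1)) >>> (P.w * (β / 3 ^ (P.j - 1))))) c := rfl
  rw [e1, hs1] at h
  rw [hs1]
  have hd : β / 3 ^ (P.j - 1) < 3 := by rw [Nat.div_lt_iff_lt_mul hpj1]; omega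
  have he3 : Lanes P.w (3 ^ s1) (comp 3 P.w s1
      (Em P Ed (β % 3 ^ (P.j - 1)) >>> (P.w * (β / 3 ^ (P.j - 1)))))
      (fun t => eF P Ed (β + 3 ^ P.j * t)) := by
    intro t
    rw [lane_comp 3 P.w s1 _ t (by norm_num), lane_shr]
    split_ifs with ht
    · have e2 : β + 3 ^ P.j * t = β + 3 ^ (P.j - 1) * (3 * t) := by rw [hjj]; ring
      show lane P.w (Em P Ed (β % 3 ^ (P.j - 1))) (3 * t + β / 3 ^ (P.j - 1)) =
        eF P Ed (β + 3 ^ P.j * t)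
      rw [e2, eF_add]
      congr 1
      rw [Nat.mod_eq_of_lt (by omega)]
    · rfl
  exact ptE_sound h1 h2 hs he3 (fun t _ => eF_lt h1 _) hc hcf h

end Pool.Agent.Lib_helper1.V
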